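import Pool.Agent.TH678.SQ.Exist
import Pool.Agent.TH678.RS.Diag

/-! Hiding a tuple of entries of a table among decoys -/

set_option autoImplicit false

namespace Pool.Agent.TH678.SQ

open Pool.Agent.NPC Pool.Agent.H622R2 Pool.Agent.H620R2.Gauge Pool.Agent.H622R2.Exp Finset
  Pool.Agent.TH678.ETH Pool.Agent.TH678.SETH Pool.Agent.TH678.RW Pool.Agent.TH678.WP
  Pool.Agent.TH678.RS

/-- the concatenation -/
def cat {k ℓ : ℕ} (z : Fin k → Fin ℓ → Bool) : List Bool :=
  (List.ofFn (fun j => List.ofFn (z j))).flatten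

theorem length_cat {k ℓ : ℕ} (z : Fin k → Fin ℓ → Bool) : (cat z).length = k * ℓ := by
  unfold cat
  rw [List.length_flatten, List.map_ofFn]
  have : (List.length ∘ fun j => List.ofFn (z j)) = fun _ => ℓ := by
    funext j
    simp
  rw [this]
  simp

theorem cat_inj {ℓ : ℕ} : ∀ {k : ℕ} {z z' : Fin k → Fin ℓ → Bool}, cat z = cat z' → z = z' := by
  intro k
  induction k with
  | zero =>
    intro z z' _
    funext j
    exact j.elim0
  | succ k ih =>
    intro z z' h
    unfold cat at h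
    rw [List.ofFn_succ, List.ofFn_succ, List.flatten_cons, List.flatten_cons] at h
    obtain ⟨h1, h2⟩ := List.append_inj h (by simp)
    have h3 : (fun j : Fin k => z j.succ) = fun j => z' j.succ := ih h2
    funext j
    refine Fin.cases ?_ (fun j => ?_) j
    · exact List.ofFn_injective h1
    · exact congrFun h3 j

/-- the string of the level -/
def ls {k ℓ : ℕ} (z : Fin k → Fin ℓ → Bool) : List Bool := false :: cat z

theorem length_ls {k ℓ : ℕ} (z : Fin k → Fin ℓ → Bool) : (ls z).length = k * ℓ + 1 := by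
  unfold ls
  rw [List.length_cons, length_cat]

theorem ls_inj {k ℓ : ℕ} {z z' : Fin k → Fin ℓ → Bool} (h : ls z = ls z') : z = z' := by
  unfold ls at h
  exact cat_inj (List.cons.inj h).2

/-- some tuple of entries of the table is there -/
def HitR {k ℓ n : ℕ} (A : Oracle) (r : Fin k → Fin n → Fin ℓ → Bool) : Prop :=
  ∃ ι : Fin k → Fin n, A (ls (zr r ι)) = true

open Classical in
/-- the oracle with the decoys -/
noncomputable def BD {k ℓ : ℕ} (B₀ : Oracle) (D : Finset (Fin k → Fin ℓ → Bool)) : Oracle :=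
  fun u => if u.length < k * ℓ + 1 then B₀ u else decide (∃ z ∈ D, u = ls z)

variable {g : ℕ → Alg} {S : ℕ → Polynomial ℕ} {b : ℕ → ℕ} {Φ : Oracle → Oracle}
  {k ℓ n σ T : ℕ} {B₀ : Oracle}

theorem BD_ls (D : Finset (Fin k → Fin ℓ → Bool)) (z : Fin k → Fin ℓ → Bool) :
    BD B₀ D (ls z) = true ↔ z ∈ D := by
  classical
  unfold BD
  rw [if_neg (by rw [length_ls]; omega), decide_eq_true_eq]
  constructor
  · rintro ⟨z', hz', h⟩
    rw [ls_inj h]
    exact hz'
  · intro h
    exact ⟨z, h, rfl⟩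

theorem BD_agree {D D' : Finset (Fin k → Fin ℓ → Bool)} {q : List Bool}
    (h : ∀ z, q = ls z → (z ∈ D' ↔ z ∈ D)) : BD B₀ D' q = BD B₀ D q := by
  classical
  by_cases hz : ∃ z : Fin k → Fin ℓ → Bool, q = ls z
  · obtain ⟨z, rfl⟩ := hz
    rw [Bool.eq_iff_iff, BD_ls, BD_ls]
    exact h z rfl
  · push Not at hz
    unfold BD
    split_ifs
    · rfl
    · rw [decide_eq_decide]
      exact ⟨fun ⟨z, _, h2⟩ => absurd h2 (hz z), fun ⟨z, _, h2⟩ => absurd h2 (hz z)⟩

theorem phi_agree (hc : Cd g S b Φ) (h2 : ∀ s, k * ℓ + 1 ≤ s → σ < s ^ (b s + 1))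
    {D D' : Finset (Fin k → Fin ℓ → Bool)} {q : List Bool} (hq : q.length ≤ σ)
    (h : ∀ z, q = ls z → (z ∈ D' ↔ z ∈ D)) : Φ (BD B₀ D') q = Φ (BD B₀ D) q := by
  by_cases hp : ∃ p : IB S b, q = cB S b p
  · refine blind hc h2 (fun u hu => ?_) _ q le_rfl hq (Or.inl hp)
    unfold BD
    rw [if_pos hu, if_pos hu]
  · push Not at hp
    rw [hc.off _ q hp, hc.off _ q hp]
    exact BD_agree h

/-- the predicate of the code -/
def ph (g : ℕ → Alg) (Φ : Oracle → Oracle) (B₀ : Oracle) (p : ℕ × List Bool)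
    (D : Finset (Fin k → Fin ℓ → Bool)) : Prop :=
  ∃ w : List Bool, w.length ≤ par p.2 ∧
    (g p.1).out (Φ (BD B₀ D)) (pairBits w p.2) = some [true]

theorem code_ph (hc : Cd g S b Φ) (D : Finset (Fin k → Fin ℓ → Bool)) {e i : ℕ} {y : List Bool}
    (hi : (S e).eval y.length ^ (b ((S e).eval y.length) + 1) ≤ i) :
    Φ (BD B₀ D) (cS e i y) = true ↔ ph g Φ B₀ (e, y) D := by
  have h2 : Φ (BD B₀ D) (cS e i y) = true ↔ ∃ w : List Bool, w.length ≤ SETH.par y ∧
      (g e).out (CC.cut i (Φ (BD B₀ D))) (pairBits w y) = some [true] := hc.on _ ⟨(e, i, y), hi⟩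
  rw [h2]
  refine exists_congr fun w => and_congr_right fun hw => ?_
  have hpy := par_le y
  obtain ⟨Q, _, hQ2, hQ3⟩ := hc.loc e y.length (Φ (BD B₀ D)) (pairBits w y) (by
    rw [length_pairBits]; omega)
  have hSi : (S e).eval y.length ≤ i := (hc.le_pow e y.length).trans hi
  rw [hQ3 (CC.cut i (Φ (BD B₀ D))) fun q hq => by
    unfold CC.cut
    rw [if_pos ((hQ2 q hq).trans hSi)]]

theorem cert_ph (hc : Cd g S b Φ) (h2 : ∀ s, k * ℓ + 1 ≤ s → σ < s ^ (b s + 1))
    {p : ℕ × List Bool} (hp : (S p.1).eval p.2.length ≤ σ) :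
    Cert σ (ph (k := k) (ℓ := ℓ) g Φ B₀ p) := by
  classical
  rintro D ⟨w, hw, hacc⟩
  have hpy := par_le p.2
  obtain ⟨Q, hQ1, hQ2, hQ3⟩ := hc.loc p.1 p.2.length (Φ (BD B₀ D)) (pairBits w p.2) (by
    rw [length_pairBits]; omega)
  refine ⟨univ.filter (fun z => ls z ∈ Q), ?_, fun D' hD' => ⟨w, hw, ?_⟩⟩
  · refine (card_le_card_of_injOn (fun z => ls z) (fun z hz => (mem_filter.1 hz).2)
      (fun z _ z' _ h => ls_inj h)).trans (hQ1.trans hp)
  · rw [hQ3 (Φ (BD B₀ D')) fun q hq => ?_]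
    · exact hacc
    · refine phi_agree hc h2 ((hQ2 q hq).trans hp) fun z hz => ?_
      exact hD' z (mem_filter.2 ⟨mem_univ _, hz ▸ hq⟩)

open Classical in
/-- the relevant codes -/
noncomputable def YY (S : ℕ → Polynomial ℕ) (σ : ℕ) : Finset (ℕ × List Bool) :=
  (Finset.range (σ + 1) ×ˢ (exists_short σ).choose).filter
    (fun p => (S p.1).eval p.2.length ≤ σ)

theorem card_YY (S : ℕ → Polynomial ℕ) (σ : ℕ) : (YY S σ).card ≤ (σ + 1) * 2 ^ (σ + 1) := by
  classical
  unfold YY
  refine (card_filter_le _ _).trans ?_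
  rw [card_product, card_range]
  exact Nat.mul_le_mul_left _ (exists_short σ).choose_spec.1

theorem mem_YY (hc : Cd g S b Φ) {e : ℕ} {y : List Bool} (h : (S e).eval y.length ≤ σ) :
    (e, y) ∈ YY S σ := by
  classical
  unfold YY
  have h1 := hc.big e y.length
  refine mem_filter.2 ⟨mem_product.2 ⟨mem_range.2 (show e < σ + 1 by omega), ?_⟩, h⟩
  exact (exists_short σ).choose_spec.2 y (by omega)

theorem YY_le {p : ℕ × List Bool} (h : p ∈ YY S σ) : (S p.1).eval p.2.length ≤ σ := by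
  classical
  unfold YY at h
  exact (mem_filter.1 h).2

/-- the numbers -/
structure Nums (b : ℕ → ℕ) (e k ℓ n σ T h bb P M : ℕ) : Prop where
  hn : 1 ≤ n
  σ1 : 1 ≤ σ
  n1 : ∀ s, σ < s → T < s ^ (b s + 1)
  n2 : ∀ s, k * ℓ + 1 ≤ s → σ < s ^ (b s + 1)
  hM : 2 * (h * h * σ) ≤ M
  hM0 : 1 ≤ M
  hMn : M ≤ n ^ (e * bb)
  hb : 2 ≤ n ^ (e * bb)
  h1 : 4 * ((σ + 1) * 2 ^ (σ + 1) * (2 * h ^ h * ((P + 1) ^ h * σ ^ h))) ≤ M ^ h
  h2 : 4 * n ^ k ≤ P + 1
  h3 : 4 * (((σ + 1) * 2 ^ (σ + 1) + 2 ^ (ℓ * k)) * (k * n ^ k * n ^ ((e + 1) * (h + 1)))) ≤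
    (2 ^ ℓ) ^ (h + 1)
  h4 : T * (σ * ((h + 1) ^ k * n ^ bb)) < n ^ k

/-- **One error.** -/
theorem escape2 (hc : Cd g S b Φ) {ε h bb P M : ℕ} (hnum : Nums b ε k ℓ n σ T h bb P M)
    {No : (Fin k → Fin n → Fin ℓ → Bool) → Oracle → Prop} (hN : ∀ r, Fw T (No r))
    (B₀ : Oracle) : ∃ (r : Fin k → Fin n → Fin ℓ → Bool) (B : Oracle),
      (∀ u : List Bool, u.length < k * ℓ + 1 → B u = B₀ u) ∧
      ¬ (No r (Φ B) ↔ ¬ HitR (Φ B) r) := by
  classical
  have hcW : Fintype.card (Fin ℓ → Bool) = 2 ^ ℓ := by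
    rw [Fintype.card_fun, Fintype.card_bool, Fintype.card_fin]
  have hcU : Fintype.card (Fin k → Fin ℓ → Bool) = 2 ^ (ℓ * k) := by
    rw [Fintype.card_fun, hcW, Fintype.card_fin, pow_mul]
  obtain ⟨D, r, hD1, hD2, hD3⟩ := exist (W := Fin ℓ → Bool) (n := n) (k := k) (s := σ) (h := h)
    (b := bb) (P := P) (M := M) (e := ε) hnum.hn (YY S σ) (fun p => ph g Φ B₀ p)
    (fun p hp => cert_ph hc hnum.n2 (YY_le hp)) hnum.hM hnum.hM0 hnum.hMn hnum.hb
    (le_trans (Nat.mul_le_mul_left _ (Nat.mul_le_mul_right _ (card_YY S σ))) hnum.h1) hnum.h2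
    (by
      rw [hcW, hcU]
      exact le_trans (Nat.mul_le_mul_left _ (Nat.mul_le_mul_right _
        (Nat.add_le_add_right (card_YY S σ) _))) hnum.h3)
    (by rw [hcW]; positivity)
  set X := (h + 1) ^ k * n ^ bb with hX
  have hhit : ∀ D' : Finset (Fin k → Fin ℓ → Bool),
      HitR (Φ (BD B₀ D')) r ↔ ∃ ι, zr r ι ∈ D' := by
    intro D'
    unfold HitR
    refine exists_congr fun ι => ?_
    have : Φ (BD B₀ D') (ls (zr r ι)) = BD B₀ D' (ls (zr r ι)) := off_false hc _ _
    rw [this, BD_ls]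
  have hno : ¬ HitR (Φ (BD B₀ D)) r := by
    rw [hhit]
    rintro ⟨ι, h⟩
    exact hD1 ι h
  have hB : ∀ D' : Finset (Fin k → Fin ℓ → Bool), ∀ u : List Bool, u.length < k * ℓ + 1 →
      BD B₀ D' u = B₀ u := fun D' u hu => by
    unfold BD
    rw [if_pos hu]
  by_cases hNo : No r (Φ (BD B₀ D))
  · obtain ⟨Q, hQ1, hQ2, hQ3⟩ := hN r (Φ (BD B₀ D)) hNo
    have hK : ∀ q : List Bool, ∃ K : Finset (Fin k → Fin n), q.length ≤ T →
        (K.card ≤ σ * X ∧ ∀ ι, ι ∉ K → Φ (BD B₀ (insert (zr r ι) D)) q = Φ (BD B₀ D) q) := by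
      intro q
      by_cases hqT : q.length ≤ T
      · have hXσ : X ≤ σ * X := Nat.le_mul_of_pos_left _ hnum.σ1
        by_cases hp : ∃ p : IB S b, q = cB S b p
        · obtain ⟨⟨⟨e, i, y⟩, hp1⟩, rfl⟩ := hp
          have hlen : (cB S b ⟨(e, i, y), hp1⟩).length = i + 1 + 1 + (e + 1 + y.length) :=
            length_cS e i y
          rw [hlen] at hqT
          have hsσ : (S e).eval y.length ≤ σ := by
            by_contra hcon
            have h5 := hnum.n1 _ (by omega : σ < (S e).eval y.length)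
            have h6 : (S e).eval y.length ^ (b ((S e).eval y.length) + 1) ≤ i := hp1
            omega
          have hval : ∀ D', Φ (BD B₀ D') (cB S b ⟨(e, i, y), hp1⟩) = true ↔
              ph g Φ B₀ (e, y) D' := fun D' => code_ph (k := k) (ℓ := ℓ) hc D' hp1
          have hY := mem_YY hc hsσ
          by_cases hφ : ph g Φ B₀ (e, y) D
          · obtain ⟨C, hC1, hC2⟩ := cert_ph hc hnum.n2 (YY_le hY) D hφ
            refine ⟨C.biUnion (fun u => univ.filter (fun ι => zr r ι ∈ ({u} : Finset _))),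
              fun _ => ⟨?_, fun ι hι => ?_⟩⟩
            · refine (card_biUnion_le_card_mul _ _ X fun u _ => ?_).trans
                (Nat.mul_le_mul_right _ hC1)
              have h5 := hD3 u
              unfold Gt at h5
              convert h5 using 3
            · rw [Bool.eq_iff_iff, hval, hval]
              refine iff_of_true (hC2 _ fun x hx => ?_) hφ
              rw [mem_insert]
              refine or_iff_right_of_imp fun hxz => ?_
              exfalso
              apply hι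
              rw [mem_biUnion]
              exact ⟨x, hx, mem_filter.2 ⟨mem_univ _, by rw [hxz]; exact mem_singleton_self _⟩⟩
          · have h5 := (hD2 _ hY).resolve_left hφ
            refine ⟨univ.filter (fun ι => zr r ι ∈ Zs (ph g Φ B₀ (e, y)) D),
              fun _ => ⟨?_, fun ι hι => ?_⟩⟩
            · refine le_trans ?_ hXσ
              unfold Gt at h5
              convert h5 using 3
            · rw [Bool.eq_iff_iff, hval, hval]
              refine iff_of_false (fun h6 => hι ?_) hφ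
              exact mem_filter.2 ⟨mem_univ _, mem_Zs.2 ⟨hD1 ι, h6⟩⟩
        · push Not at hp
          by_cases hz : ∃ u : Fin k → Fin ℓ → Bool, q = ls u
          · obtain ⟨u, rfl⟩ := hz
            refine ⟨univ.filter (fun ι => zr r ι ∈ ({u} : Finset _)),
              fun _ => ⟨?_, fun ι hι => ?_⟩⟩
            · refine le_trans ?_ hXσ
              have h5 := hD3 u
              unfold Gt at h5
              convert h5 using 3
            · rw [hc.off _ _ hp, hc.off _ _ hp]
              refine BD_agree fun z hz => ?_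
              have hz' : u = z := ls_inj hz
              rw [mem_insert]
              refine or_iff_right_of_imp fun hxz => ?_
              exfalso
              apply hι
              refine mem_filter.2 ⟨mem_univ _, ?_⟩
              rw [← hxz, hz']
              exact mem_singleton_self _
          · push Not at hz
            refine ⟨∅, fun _ => ⟨by simp, fun ι _ => ?_⟩⟩
            rw [hc.off _ _ hp, hc.off _ _ hp]
            exact BD_agree fun z hz' => absurd hz' (hz z)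
      · exact ⟨∅, fun h => absurd h hqT⟩
    choose K hK using hK
    have hcard : (Q.biUnion K).card < (univ : Finset (Fin k → Fin n)).card := by
      have h5 : (Q.biUnion K).card ≤ Q.card * (σ * X) :=
        card_biUnion_le_card_mul _ _ _ fun q hq => (hK q (hQ2 q hq)).1
      have h6 : Q.card * (σ * X) ≤ T * (σ * X) := Nat.mul_le_mul_right _ hQ1
      have h7 := hnum.h4
      rw [← hX] at h7
      rw [card_univ, Fintype.card_fun, Fintype.card_fin, Fintype.card_fin]
      omega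
    obtain ⟨ι, _, hι⟩ := exists_mem_notMem_of_card_lt_card hcard
    refine ⟨r, BD B₀ (insert (zr r ι) D), hB _, fun h => ?_⟩
    refine h.1 (hQ3 _ fun q hq => (hK q (hQ2 q hq)).2 ι fun h8 => hι ?_) ?_
    · exact mem_biUnion.2 ⟨q, hq, h8⟩
    · rw [hhit]
      exact ⟨ι, mem_insert_self _ _⟩
  · exact ⟨r, BD B₀ D, hB _, fun h => hNo (h.2 hno)⟩

end Pool.Agent.TH678.SQ
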