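import Pool.Agent.TH678.SQ.Defs
import Pool.Agent.TH678.SQ.Esc

/-! The machine for a table -/

set_option autoImplicit false

namespace Pool.Agent.TH678.SQ

open Pool.Agent.NPC Pool.Agent.H620R2.Gauge Pool.Agent.TH678.RW Pool.Agent.TH678.RS

variable {κ ℓ n : ℕ}

/-- the entry of the table -/
def blk (r : Fin κ → Fin n → Fin ℓ → Bool) (s : ℕ) (i : Fin n) : List Bool :=
  if h : s < κ then List.ofFn (r ⟨s, h⟩ i) else []

/-- the prefix -/
def pre0 (s : ℕ) : List Bool := if s = 0 then [false] else []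

/-- the transition -/
def gq (κ s : ℕ) (v : List Bool) : Rule :=
  (if s = 0 then 0 else s + 1, 0, if s + 1 = κ then 1 else s + 2, if s + 1 = κ then κ + 1 else s + 2,
    0, 2, pre0 s ++ v, decide (s + 1 = κ))

/-- the machine -/
def mq (r : Fin κ → Fin n → Fin ℓ → Bool) : List Rule :=
  (List.range κ).flatMap (fun s => (List.finRange n).map (fun i => gq κ s (blk r s i)))

theorem mem_mq {r : Fin κ → Fin n → Fin ℓ → Bool} {ρ : Rule} :
    ρ ∈ mq r ↔ ∃ s < κ, ∃ i : Fin n, ρ = gq κ s (blk r s i) := by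
  unfold mq
  rw [List.mem_flatMap]
  refine exists_congr fun s => ?_
  rw [List.mem_range, List.mem_map]
  refine and_congr_right fun _ => exists_congr fun i => ?_
  exact ⟨fun h => h.2.symm, fun h => ⟨List.mem_finRange i, h.symm⟩⟩

/-- the concatenation of the entries from `s` on -/
def catn (r : Fin κ → Fin n → Fin ℓ → Bool) : ℕ → ℕ → (ℕ → Fin n) → List Bool
  | _, 0, _ => []
  | s, j + 1, ι => blk r s (ι s) ++ catn r (s + 1) j ι

theorem catn_congr (r : Fin κ → Fin n → Fin ℓ → Bool) : ∀ (j s : ℕ) (ι ι' : ℕ → Fin n),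
    (∀ t, s ≤ t → ι t = ι' t) → catn r s j ι = catn r s j ι'
  | 0, _, _, _, _ => rfl
  | j + 1, s, ι, ι', h => by
    unfold catn
    rw [h s le_rfl, catn_congr r j (s + 1) ι ι' fun t ht => h t (by omega)]

theorem catn_eq (r : Fin κ → Fin n → Fin ℓ → Bool) (ι : ℕ → Fin n) : ∀ (j s : ℕ), s + j = κ →
    catn r s j ι =
      ((List.ofFn (fun t : Fin κ => List.ofFn (zr r (fun t => ι t) t))).drop s).flatten
  | 0, s, h => by
    rw [List.drop_eq_nil_of_le (by rw [List.length_ofFn]; omega)]
    rfl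
  | j + 1, s, h => by
    have hs : s < κ := by omega
    unfold catn
    rw [List.drop_eq_getElem_cons (by rw [List.length_ofFn]; exact hs), List.flatten_cons,
      catn_eq r ι j (s + 1) (by omega), List.getElem_ofFn]
    congr 1
    unfold blk
    rw [dif_pos hs]
    rfl

theorem hitR_iff (A : Oracle) (hκ : 0 < κ) (r : Fin κ → Fin n → Fin ℓ → Bool) :
    HitR A r ↔ ∃ ι : ℕ → Fin n, A (false :: catn r 0 κ ι) = true := by
  have h0 : ∀ ι : ℕ → Fin n, false :: catn r 0 κ ι = ls (zr r (fun t : Fin κ => ι t)) := by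
    intro ι
    rw [catn_eq r ι κ 0 (Nat.zero_add κ), List.drop_zero]
    rfl
  constructor
  · rintro ⟨ι, h⟩
    refine ⟨fun t => if h : t < κ then ι ⟨t, h⟩ else ι ⟨0, hκ⟩, ?_⟩
    rw [h0]
    have : (fun t : Fin κ => if h : (t : ℕ) < κ then ι ⟨t, h⟩ else ι ⟨0, hκ⟩) = ι := by
      funext t
      rw [dif_pos t.2]
    rw [this]
    exact h
  · rintro ⟨ι, h⟩
    rw [h0] at h
    exact ⟨_, h⟩

theorem halts_q (A : Oracle) (r : Fin κ → Fin n → Fin ℓ → Bool) : ∀ (j s : ℕ), s < κ →
    κ - s = j → ∀ (l rr : List ℕ) (o : List Bool), rr.head?.getD 0 = 0 →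
    (HaltsIn A (mq r) j (if s = 0 then 0 else s + 1, l, rr, o) ↔
      ∃ ι : ℕ → Fin n, A (o ++ (pre0 s ++ catn r s j ι)) = true) := by
  intro j
  induction j with
  | zero =>
    intro s hs hj
    omega
  | succ j ih =>
    intro s hs hj l rr o hr
    have h0 : HaltsIn A (mq r) (j + 1) (if s = 0 then 0 else s + 1, l, rr, o) ↔
        ∃ i : Fin n, HaltsIn A (mq r) j
          (step A (if s = 0 then 0 else s + 1, l, rr, o) (gq κ s (blk r s i))) := by
      show ((if s = 0 then 0 else s + 1, l, rr, o) : Cfg).1 = 1 ∨ (∃ ρ ∈ mq r, _) ↔ _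
      constructor
      · rintro (h | ⟨ρ, h1, h2, h3⟩)
        · exfalso
          have h' : (if s = 0 then 0 else s + 1) = 1 := h
          split_ifs at h' <;> omega
        · obtain ⟨s', hs', i, rfl⟩ := mem_mq.1 h1
          have h4 : (if s = 0 then 0 else s + 1) = if s' = 0 then 0 else s' + 1 := h2.1
          have : s' = s := by
            split_ifs at h4 <;> omega
          subst this
          exact ⟨i, h3⟩
      · rintro ⟨i, h⟩
        exact Or.inr ⟨gq κ s (blk r s i), mem_mq.2 ⟨s, hs, i, rfl⟩, ⟨rfl, hr⟩, h⟩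
    rw [h0]
    by_cases hk : s + 1 = κ
    · have hj0 : j = 0 := by omega
      subst hj0
      constructor
      · rintro ⟨i, h⟩
        refine ⟨fun _ => i, ?_⟩
        have e : catn r s (0 + 1) (fun _ => i) = blk r s i := by
          show blk r s i ++ [] = _
          rw [List.append_nil]
        rw [e]
        by_contra hA
        have hA' : A (o ++ (pre0 s ++ blk r s i)) = false := by simpa using hA
        have h1 : (step A (if s = 0 then 0 else s + 1, l, rr, o) (gq κ s (blk r s i))).1 = 1 := h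
        have h2 : (step A (if s = 0 then 0 else s + 1, l, rr, o) (gq κ s (blk r s i))).1 =
            κ + 1 := by
          unfold step nxt gq
          simp only [hk, decide_true, if_true, hA']
          rfl
        omega
      · rintro ⟨ι, h⟩
        refine ⟨ι s, ?_⟩
        have e : catn r s (0 + 1) ι = blk r s (ι s) := by
          show blk r s (ι s) ++ [] = _
          rw [List.append_nil]
        rw [e] at h
        show (step A (if s = 0 then 0 else s + 1, l, rr, o) (gq κ s (blk r s (ι s)))).1 = 1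
        unfold step nxt gq
        simp only [hk, decide_true, if_true, h]
    · have h1 : ∀ i : Fin n, step A (if s = 0 then 0 else s + 1, l, rr, o)
          (gq κ s (blk r s i)) =
          (if s + 1 = 0 then 0 else (s + 1) + 1, l, 0 :: rr.tail,
            o ++ (pre0 s ++ blk r s i)) := by
        intro i
        unfold step nxt gq
        simp [hk]
      have hs2 : s + 1 < κ := by omega
      have hj2 : κ - (s + 1) = j := by rw [Nat.sub_add_eq, hj, Nat.add_sub_cancel]
      have hp : pre0 (s + 1) = [] := rfl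
      constructor
      · rintro ⟨i, h⟩
        rw [h1 i] at h
        obtain ⟨ι, h2⟩ := (ih (s + 1) hs2 hj2 l (0 :: rr.tail) _ rfl).1 h
        refine ⟨Function.update ι s i, ?_⟩
        unfold catn
        rw [Function.update_self, catn_congr r j (s + 1) (Function.update ι s i) ι
          fun t ht => Function.update_of_ne (by omega) _ _]
        rw [hp, List.nil_append, List.append_assoc, List.append_assoc] at h2
        exact h2
      · rintro ⟨ι, h⟩
        refine ⟨ι s, ?_⟩
        rw [h1]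
        refine (ih (s + 1) hs2 hj2 l (0 :: rr.tail) _ rfl).2 ⟨ι, ?_⟩
        rw [hp, List.nil_append, List.append_assoc, List.append_assoc]
        exact h

/-- the instance -/
def Xq (r : Fin κ → Fin n → Fin ℓ → Bool) : List Bool := bits (mq r)

theorem length_mq (r : Fin κ → Fin n → Fin ℓ → Bool) : (mq r).length = κ * n := by
  unfold mq
  rw [List.length_flatMap]
  simp

theorem length_blk (r : Fin κ → Fin n → Fin ℓ → Bool) (s : ℕ) (i : Fin n) :
    (blk r s i).length ≤ ℓ := by
  unfold blk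
  split_ifs <;> simp

theorem length_Xq (e m : ℕ) (hκ : 0 < κ) (r : Fin κ → Fin (2 ^ m) → Fin ((e + 2) * m) → Bool) :
    (Xq r).length ≤ 120 * (κ + 2) ^ 2 * (e + 2) * ((m + 1) * 2 ^ m) := by
  have h1 : ∀ ρ ∈ mq r, sz ρ ≤ 60 * (κ + 2) * ((e + 2) * (m + 1)) := by
    intro ρ hρ
    obtain ⟨s, hs, i, rfl⟩ := mem_mq.1 hρ
    unfold gq
    simp only [sz_pair]
    have e1 : sz (if s = 0 then 0 else s + 1) ≤ 4 * (κ + 2) + 1 := by
      refine (sz_nat_le' _).trans ?_
      split_ifs <;> omega
    have e2 : sz (if s + 1 = κ then 1 else s + 2) ≤ 4 * (κ + 2) + 1 := by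
      refine (sz_nat_le' _).trans ?_
      split_ifs <;> omega
    have e3 : sz (if s + 1 = κ then κ + 1 else s + 2) ≤ 4 * (κ + 2) + 1 := by
      refine (sz_nat_le' _).trans ?_
      split_ifs <;> omega
    have e4 : sz (0 : ℕ) ≤ 1 := sz_nat_le' 0
    have e5 : sz (2 : ℕ) ≤ 9 := sz_nat_le' 2
    have e6 := sz_listBool_le (pre0 s ++ blk r s i)
    have e6' : (pre0 s ++ blk r s i).length ≤ (e + 2) * m + 1 := by
      rw [List.length_append]
      have := length_blk r s i
      have h2 : (pre0 s).length ≤ 1 := by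
        unfold pre0
        split_ifs <;> simp
      omega
    have e7 := sz_bool_le (decide (s + 1 = κ))
    have e8 : 3 * ((e + 2) * (m + 1)) ≤ (κ + 2) * ((e + 2) * (m + 1)) :=
      Nat.mul_le_mul_right _ (by omega)
    have e9 : κ + 2 ≤ (κ + 2) * ((e + 2) * (m + 1)) :=
      Nat.le_mul_of_pos_right _ (Nat.mul_pos (by omega) (by omega))
    have e10 : 60 * (κ + 2) * ((e + 2) * (m + 1)) = 60 * ((κ + 2) * ((e + 2) * (m + 1))) := by
      ring
    have e11 : (e + 2) * (m + 1) = (e + 2) * m + (e + 2) := by ring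
    rw [e10]
    omega
  have h2 := sz_le_length_mul _ _ h1
  rw [length_mq] at h2
  have h5 : (Xq r).length = sz (mq r) := bits_length _
  rw [h5]
  refine h2.trans ?_
  have h7 : 1 ≤ (m + 1) * 2 ^ m := one_le_mm' m
  have h6 : 1 ≤ (κ + 2) * ((e + 2) * (m + 1)) :=
    Nat.mul_pos (by omega) (Nat.mul_pos (by omega) (by omega))
  have h8 : κ * 2 ^ m * (60 * (κ + 2) * ((e + 2) * (m + 1)) + 1) ≤
      61 * ((κ + 2) ^ 2 * (e + 2) * ((m + 1) * 2 ^ m)) := by
    calc κ * 2 ^ m * (60 * (κ + 2) * ((e + 2) * (m + 1)) + 1)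
        ≤ (κ + 2) * 2 ^ m * (61 * ((κ + 2) * ((e + 2) * (m + 1)))) := by
          apply Nat.mul_le_mul
          · exact Nat.mul_le_mul_right _ (by omega)
          · have : 60 * (κ + 2) * ((e + 2) * (m + 1)) = 60 * ((κ + 2) * ((e + 2) * (m + 1))) := by
              ring
            omega
      _ = 61 * ((κ + 2) ^ 2 * (e + 2) * ((m + 1) * 2 ^ m)) := by ring
  have h9 : 1 ≤ (κ + 2) ^ 2 * (e + 2) * ((m + 1) * 2 ^ m) :=
    Nat.mul_pos (Nat.mul_pos (by positivity) (by omega)) (by omega)
  have h10 : 120 * (κ + 2) ^ 2 * (e + 2) * ((m + 1) * 2 ^ m) =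
      120 * ((κ + 2) ^ 2 * (e + 2) * ((m + 1) * 2 ^ m)) := by ring
  omega
where one_le_mm' (m : ℕ) : 1 ≤ (m + 1) * 2 ^ m := Nat.mul_pos (by omega) (by positivity)

theorem kHaltS_iff (A : Oracle) {e m : ℕ} (hκ : 0 < κ)
    (r : Fin κ → Fin (2 ^ m) → Fin ((e + 2) * m) → Bool) :
    (Xq r, κ) ∈ kHaltS e A ↔ HitR A r := by
  have hlog : m ≤ Nat.log 2 (Xq r).length := by
    apply Nat.le_log_of_pow_le (by norm_num)
    have h1 := length_lt_sz (mq r)
    rw [length_mq] at h1
    have h2 : (Xq r).length = sz (mq r) := bits_length _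
    have h3 : 2 ^ m ≤ κ * 2 ^ m := Nat.le_mul_of_pos_left _ hκ
    omega
  have h0 : (Xq r, κ) ∈ kHaltS e A ↔ HaltsIn A (mq r) κ (0, [], [], []) := by
    constructor
    · rintro ⟨M, h1, _, h2⟩
      have h3 : mq r = M := bits_injective h1
      rw [h3]
      exact h2
    · intro h
      refine ⟨mq r, rfl, fun ρ hρ => ?_, h⟩
      obtain ⟨s, hs, i, rfl⟩ := mem_mq.1 hρ
      show (pre0 s ++ blk r s i).length ≤ (e + 2) * (Nat.log 2 (Xq r).length + 1)
      rw [List.length_append]
      have := length_blk r s i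
      have h2 : (pre0 s).length ≤ 1 := by
        unfold pre0
        split_ifs <;> simp
      have h3 := Nat.mul_le_mul_left (e + 2) hlog
      rw [mul_add]
      omega
  rw [h0, hitR_iff A hκ]
  have h1 := halts_q A r κ 0 hκ (Nat.sub_zero κ) [] [] [] rfl
  rw [if_pos rfl] at h1
  rw [h1]
  rfl

end Pool.Agent.TH678.SQ
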