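import Pool.Agent.TH678.RS.Defs

/-!
# Short halting with short questions
-/

set_option autoImplicit false

namespace Pool.Agent.TH678.SQ

open Pool.Agent.NPC Pool.Agent.H620R2.Gauge Pool.Agent.TH678.ETH Pool.Agent.TH678.WP
  Pool.Agent.TH678.RW Pool.Agent.TH678.RS

/-- The language `L` is decided in time `2 ^ (2 ^ O(√(log n)))` relative to `A`: the instance `x`,
together with so many ones, is decided in polynomial time relative to `A`. (This is
`2 ^ (n ^ o(1))`.) -/
def InTimeS (A : Oracle) (L : Set (List Bool)) : Prop :=
  ∃ (C : ℕ) (V : List Bool → List Bool), IsFP A V ∧ ∀ x : List Bool, x ∈ L ↔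
    V (pairBits (List.replicate (2 ^ 2 ^ (C * (Nat.sqrt (Nat.log 2 (x.length + 2)) + 1))) true) x)
      = [true]

/-- **The `k`-step halting problem with short questions relative to the oracle `A`**: given (the
code `x` of) a nondeterministic Turing machine with an oracle tape, whose transitions append at most
`(e + 2) (log |x| + 1)` bits each to the oracle tape, and given `k`, can the machine, started on the
blank tape in the state `0`, halt within `k` steps? (So the machine asks at most `k` questions, each
of at most `(e + 2) k (log |x| + 1)` bits.) -/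
def kHaltS (e : ℕ) (A : Oracle) : Set (List Bool × ℕ) :=
  {q | ∃ M : List Rule, q.1 = bits M ∧
    (∀ ρ ∈ M, (rOut ρ).length ≤ (e + 2) * (Nat.log 2 q.1.length + 1)) ∧
    HaltsIn A M q.2 (0, [], [], [])}

/-- The oracles relative to which `NP` is in time `2 ^ (n ^ o(1))` and `M[1] = FPT`, but the
`k`-step halting problem of nondeterministic Turing machines with short questions is not
fixed-parameter tractable in a strong sense. -/
structure SeparatedS (A : Oracle) : Prop where
  /-- nondeterministic polynomial time is in time `2 ^ (2 ^ O(√(log n)))` -/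
  np : ∀ L, IsNP A L → InTimeS A L
  /-- the class `M[1]` is `FPT` -/
  m1 : ∀ Q, InM1 A Q → InFPT A Q
  /-- the `k`-step halting problem with short questions is not in nonuniform `FPT` -/
  halt : ¬ ParaAny (IsP A) (kHaltS 2 A)
  /-- its complement is not in nonuniform `para-NP` -/
  cohalt : ¬ ParaAny (IsNP A) (kHaltS 2 A)ᶜ
  /-- for fixed `k` and `c ≤ k - 2 - k / e`, this problem is not decided in time `O(|x| ^ c)`, ... -/
  slice : ∀ (e k c C : ℕ) (M : Alg), 1 ≤ e → c + 2 + k / e ≤ k →
    ∃ x : List Bool, ¬ ((x, k) ∈ kHaltS e A ↔ AccIn M (C * (x.length + 1) ^ c) A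
      (pairBits (List.replicate (C * (x.length + 1) ^ c) true) x))
  /-- ... and its complement not even in nondeterministic time `O(|x| ^ c)` -/
  coslice : ∀ (e k c C : ℕ) (M : Alg), 1 ≤ e → c + 2 + k / e ≤ k →
    ∃ x : List Bool, ¬ ((x, k) ∉ kHaltS e A ↔ ∃ w : List Bool,
      w.length ≤ C * (x.length + 1) ^ c ∧ AccIn M (C * (x.length + 1) ^ c) A (pairBits w x))

end Pool.Agent.TH678.SQ
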