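import Pool.Agent.TH678.SQ.Peel

/-! The encoding argument -/

set_option autoImplicit false

namespace Pool.Agent.TH678.SQ

open Finset

variable {U : Type} [Fintype U] [DecidableEq U]

/-- the random set -/
def Dz {P : ℕ} (a : U → Fin (P + 1)) : Finset U := univ.filter (fun z => a z = 0)

theorem mem_Dz {P : ℕ} {a : U → Fin (P + 1)} {z : U} : z ∈ Dz a ↔ a z = 0 := by
  unfold Dz
  rw [mem_filter]
  exact and_iff_right (mem_univ z)

/-- **A predicate with small certificates that is false can seldom be changed by many strings.** -/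
theorem bad_le {s h P M : ℕ} {φ : Finset U → Prop} (hφ : Cert s φ) (hM : 2 * (h * h * s) ≤ M)
    (hM0 : 1 ≤ M) (Bd : Finset (U → Fin (P + 1)))
    (hBd : ∀ a ∈ Bd, ¬ φ (Dz a) ∧ M ≤ (Zs φ (Dz a)).card) :
    Bd.card * M ^ h ≤ 2 * h ^ h * ((P + 1) ^ h * ((P + 1) ^ Fintype.card U * s ^ h)) := by
  classical
  -- certificates
  have hQ : ∀ (a : U → Fin (P + 1)) (z : U), ∃ Q : Finset U, a ∈ Bd → z ∈ Zs φ (Dz a) →
      (Q.card ≤ s ∧ z ∈ Q ∧ ∀ D', (∀ x ∈ Q, x ∈ D' ↔ x ∈ insert z (Dz a)) → φ D') := by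
    intro a z
    by_cases ha : a ∈ Bd
    · by_cases hz : z ∈ Zs φ (Dz a)
      · obtain ⟨Q, hQ1, hQ2⟩ := hφ _ (mem_Zs.1 hz).2
        refine ⟨Q, fun _ _ => ⟨hQ1, ?_, hQ2⟩⟩
        by_contra hzQ
        refine (hBd a ha).1 (hQ2 _ fun x hx => ?_)
        rw [mem_insert]
        exact ⟨fun h => Or.inr h, fun h => h.resolve_left fun h => hzQ (h ▸ hx)⟩
      · exact ⟨∅, fun _ h => absurd h hz⟩
    · exact ⟨∅, fun h => absurd h ha⟩
  choose Q hQ using hQ
  set G : (U → Fin (P + 1)) → Finset (Finset U) := fun a =>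
    ((Zs φ (Dz a)).powersetCard h).filter
      (fun J => ∀ z ∈ J, ∀ z' ∈ J, z ≠ z' → z' ∉ Q a z) with hG
  have hGc : ∀ a ∈ Bd, M ^ h ≤ 2 * h ^ h * (G a).card := by
    intro a ha
    have h1 := (hBd a ha).2
    refine (Nat.pow_le_pow_left h1 h).trans (indep (fun z hz => (hQ a z ha hz).1)
      (fun z hz => (hQ a z ha hz).2.1) (hM.trans h1) (card_pos.1 (by omega)))
  set X : Finset (Σ _ : U → Fin (P + 1), Finset U) := Bd.sigma G with hX
  have hXc : Bd.card * M ^ h ≤ 2 * h ^ h * X.card := by
    rw [hX, card_sigma, mul_sum]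
    calc Bd.card * M ^ h = ∑ a ∈ Bd, M ^ h := by rw [sum_const, smul_eq_mul]
      _ ≤ _ := sum_le_sum hGc
  set F : (Σ _ : U → Fin (P + 1), Finset U) → (Σ _ : U → Fin (P + 1), Finset U) := fun x =>
    ⟨fun z => if z ∈ x.2 then 0 else x.1 z, x.2⟩ with hF
  have hfib : X.card ≤ (P + 1) ^ h * (X.image F).card := by
    refine card_le_mul_card_image _ _ fun y hy => ?_
    obtain ⟨x₀, hx₀, rfl⟩ := mem_image.1 hy
    have hx2 : x₀.2 ∈ G x₀.1 := (mem_sigma.1 hx₀).2
    have hJ : x₀.2.card = h := (mem_powersetCard.1 (mem_filter.1 hx2).1).2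
    have h1 : (X.filter (fun x => F x = F x₀)).card ≤ (Fintype.piFinset (fun z : U =>
        if z ∈ x₀.2 then (univ : Finset (Fin (P + 1))) else {x₀.1 z})).card := by
      refine card_le_card_of_injOn (fun x => x.1) ?_ ?_
      · intro x hx
        have h2 : F x = F x₀ := (mem_filter.1 hx).2
        have h3 : x.2 = x₀.2 := congrArg Sigma.snd h2
        have h4 : (fun z => if z ∈ x.2 then 0 else x.1 z) =
            (fun z => if z ∈ x₀.2 then 0 else x₀.1 z) := congrArg Sigma.fst h2
        rw [mem_coe, Fintype.mem_piFinset]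
        intro z
        by_cases hz : z ∈ x₀.2
        · rw [if_pos hz]
          exact mem_univ _
        · rw [if_neg hz, mem_singleton]
          have h5 := congrFun h4 z
          simp only [h3, if_neg hz] at h5
          exact h5
      · intro x hx y hy hxy
        have h2 : F x = F x₀ := (mem_filter.1 hx).2
        have h3 : F y = F x₀ := (mem_filter.1 hy).2
        have h4 : x.2 = y.2 := (congrArg Sigma.snd h2).trans (congrArg Sigma.snd h3).symm
        obtain ⟨x1, x2⟩ := x
        obtain ⟨y1, y2⟩ := y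
        simp only at hxy h4
        rw [hxy, h4]
    refine h1.trans (le_of_eq ?_)
    rw [Fintype.card_piFinset]
    have h6 : ∀ z : U, (if z ∈ x₀.2 then (univ : Finset (Fin (P + 1))) else {x₀.1 z}).card =
        if z ∈ x₀.2 then P + 1 else 1 := by
      intro z
      split_ifs
      · rw [card_univ, Fintype.card_fin]
      · rw [card_singleton]
    rw [prod_congr rfl fun z _ => h6 z, prod_ite, prod_const_one, mul_one, prod_const]
    congr 1
    rw [← hJ]
    congr 1
    ext z
    simp
  have himg : (X.image F).card ≤ (P + 1) ^ Fintype.card U * s ^ h := by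
    have h1 : X.image F ⊆ (univ : Finset (U → Fin (P + 1))).sigma (fun b => Pl φ (Dz b) h) := by
      intro y hy
      obtain ⟨⟨a, J⟩, hx, rfl⟩ := mem_image.1 hy
      obtain ⟨ha, hJ⟩ := mem_sigma.1 hx
      simp only at ha hJ
      obtain ⟨hJ1, hJ2⟩ := mem_filter.1 hJ
      obtain ⟨hJ3, hJ4⟩ := mem_powersetCard.1 hJ1
      have hDb : Dz (fun z => if z ∈ J then (0 : Fin (P + 1)) else a z) = Dz a ∪ J := by
        ext z
        rw [mem_Dz, mem_union, mem_Dz]
        by_cases hz : z ∈ J
        · simp [hz]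
        · simp [hz]
      have hdiff : (Dz a ∪ J) \ J = Dz a := by
        ext z
        rw [mem_sdiff, mem_union]
        constructor
        · rintro ⟨h1 | h1, h2⟩
          · exact h1
          · exact absurd h1 h2
        · intro h1
          exact ⟨Or.inl h1, fun h2 => (mem_Zs.1 (hJ3 h2)).1 h1⟩
      rw [mem_sigma]
      refine ⟨mem_univ _, ?_⟩
      show J ∈ Pl φ (Dz (fun z => if z ∈ J then (0 : Fin (P + 1)) else a z)) h
      rw [hDb]
      refine mem_filter.2 ⟨mem_powersetCard.2 ⟨subset_union_right, hJ4⟩, ?_, ?_⟩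
      · rw [hdiff]
        exact (hBd a ha).1
      · intro J' hJ' hne
        obtain ⟨z, hz⟩ := hne
        rw [hdiff]
        have hzJ := hJ' hz
        refine (hQ a z ha (hJ3 hzJ)).2.2 _ fun x hx => ?_
        rw [mem_union, mem_insert]
        constructor
        · rintro (h2 | h2)
          · exact Or.inr h2
          · left
            by_contra hxz
            exact hJ2 z hzJ x (hJ' h2) (fun h => hxz h.symm) hx
        · rintro (h2 | h2)
          · right
            rw [h2]
            exact hz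
          · exact Or.inl h2
    refine (card_le_card h1).trans ?_
    rw [card_sigma]
    calc ∑ b : U → Fin (P + 1), (Pl φ (Dz b) h).card ≤ ∑ _b : U → Fin (P + 1), s ^ h :=
          sum_le_sum fun b _ => card_Pl hφ h _
      _ = _ := by
          rw [sum_const, card_univ, Fintype.card_fun, Fintype.card_fin, smul_eq_mul]
  calc Bd.card * M ^ h ≤ 2 * h ^ h * X.card := hXc
    _ ≤ 2 * h ^ h * ((P + 1) ^ h * (X.image F).card) := Nat.mul_le_mul_left _ hfib
    _ ≤ _ := Nat.mul_le_mul_left _ (Nat.mul_le_mul_left _ himg)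

end Pool.Agent.TH678.SQ
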