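import Mathlib

/-! Random tables -/

set_option autoImplicit false

namespace Pool.Agent.TH678.SQ

open Finset

variable {W : Type} [Fintype W] [DecidableEq W] {n : ℕ}

theorem card_cons {X : Type} [Fintype X] {k : ℕ} (P : (Fin (k + 1) → X) → Prop)
    [DecidablePred P] :
    (univ.filter P).card = ∑ x : X, (univ.filter (fun f : Fin k → X => P (Fin.cons x f))).card := by
  have h1 : (univ.filter P).card = ∑ f : Fin (k + 1) → X, if P f then 1 else 0 := by
    rw [card_filter]
  have h2 : ∀ x : X, (univ.filter (fun f : Fin k → X => P (Fin.cons x f))).card =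
      ∑ f : Fin k → X, if P (Fin.cons x f) then 1 else 0 := by
    intro x
    rw [card_filter]
  rw [h1, sum_congr rfl fun x _ => h2 x, ← Fintype.sum_prod_type']
  exact (Fintype.sum_equiv (Fin.consEquiv (fun _ : Fin (k + 1) => X)) _ _ fun p => rfl).symm

/-- the entries of the table -/
def zr {k : ℕ} (r : Fin k → Fin n → W) (ι : Fin k → Fin n) : Fin k → W := fun j => r j (ι j)

open Classical in
/-- the number of tuples of entries in the set `Z` -/
noncomputable def Gt {k : ℕ} (r : Fin k → Fin n → W) (Z : Finset (Fin k → W)) : ℕ :=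
  (univ.filter (fun ι : Fin k → Fin n => zr r ι ∈ Z)).card

/-- the link -/
noncomputable def lk {k : ℕ} (Z : Finset (Fin (k + 1) → W)) (w : W) : Finset (Fin k → W) := by
  classical exact univ.filter (fun z => Fin.cons w z ∈ Z)

theorem mem_lk {k : ℕ} {Z : Finset (Fin (k + 1) → W)} {w : W} {z : Fin k → W} :
    z ∈ lk Z w ↔ (Fin.cons w z : Fin (k + 1) → W) ∈ Z := by
  classical
  unfold lk
  rw [mem_filter]
  exact and_iff_right (mem_univ z)

theorem zr_cons {k : ℕ} (r0 : Fin n → W) (r : Fin k → Fin n → W) (i : Fin n)
    (ι : Fin k → Fin n) : zr (Fin.cons r0 r : Fin (k + 1) → Fin n → W) (Fin.cons i ι) =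
      (Fin.cons (r0 i) (zr r ι) : Fin (k + 1) → W) := by
  funext j
  refine Fin.cases ?_ (fun j => ?_) j
  · rfl
  · rfl

theorem Gt_cons {k : ℕ} (r0 : Fin n → W) (r : Fin k → Fin n → W)
    (Z : Finset (Fin (k + 1) → W)) : Gt (Fin.cons r0 r : Fin (k + 1) → Fin n → W) Z =
      ∑ i : Fin n, Gt r (lk Z (r0 i)) := by
  classical
  unfold Gt
  rw [card_cons]
  refine sum_congr rfl fun i _ => ?_
  congr 1
  refine filter_congr fun ι _ => ?_
  rw [zr_cons, mem_lk]

theorem sum_lk {k : ℕ} (Z : Finset (Fin (k + 1) → W)) : Z.card = ∑ w : W, (lk Z w).card := by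
  classical
  have h1 : Z = univ.filter (fun z => z ∈ Z) := by
    ext z
    simp
  conv_lhs => rw [h1]
  rw [card_cons]
  refine sum_congr rfl fun w _ => ?_
  unfold lk
  congr

theorem lk_le {k : ℕ} (Z : Finset (Fin (k + 1) → W)) (w : W) : (lk Z w).card ≤ Z.card := by
  rw [sum_lk Z]
  exact single_le_sum (f := fun w => (lk Z w).card) (fun _ _ => Nat.zero_le _) (mem_univ w)

open Classical in
theorem heavy (e h : ℕ) {Hv : Finset W} (hH : Hv.card ≤ n ^ e) :
    (univ.filter (fun r : Fin n → W => h < (univ.filter (fun i => r i ∈ Hv)).card)).card *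
      Fintype.card W ^ (h + 1) ≤ n ^ ((e + 1) * (h + 1)) * Fintype.card W ^ n := by
  set S := univ.filter (fun r : Fin n → W => h < (univ.filter (fun i => r i ∈ Hv)).card) with hS
  set N := Fintype.card W with hN
  have hsub : S ⊆ ((univ : Finset (Fin n)).powersetCard (h + 1)).biUnion
      (fun H => Fintype.piFinset (fun i : Fin n => if i ∈ H then Hv else univ)) := by
    intro r hr
    obtain ⟨H, hH1, hH2⟩ := exists_subset_card_eq (s := univ.filter (fun i => r i ∈ Hv))
      (n := h + 1) (mem_filter.1 hr).2
    rw [mem_biUnion]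
    refine ⟨H, mem_powersetCard.2 ⟨subset_univ _, hH2⟩, Fintype.mem_piFinset.2 fun i => ?_⟩
    split_ifs with hi
    · exact (mem_filter.1 (hH1 hi)).2
    · exact mem_univ _
  have hcard : ∀ H ∈ (univ : Finset (Fin n)).powersetCard (h + 1),
      (Fintype.piFinset (fun i : Fin n => if i ∈ H then Hv else univ)).card =
        Hv.card ^ (h + 1) * N ^ (n - (h + 1)) := by
    intro H hH
    have hHc := (mem_powersetCard.1 hH).2
    rw [Fintype.card_piFinset]
    have h6 : ∀ i : Fin n, (if i ∈ H then Hv else univ).card = if i ∈ H then Hv.card else N := by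
      intro i
      split_ifs
      · rfl
      · rw [card_univ]
    rw [prod_congr rfl fun z _ => h6 z, prod_ite, prod_const, prod_const]
    congr 2
    · rw [← hHc]
      congr 1
      ext z
      simp
    · have : univ.filter (fun x => x ∉ H) = Hᶜ := by
        ext z
        simp
      rw [this, card_compl, Fintype.card_fin, hHc]
  rcases Nat.lt_or_ge n (h + 1) with hn | hn
  · have : (univ : Finset (Fin n)).powersetCard (h + 1) = ∅ := by
      rw [powersetCard_eq_empty, card_univ, Fintype.card_fin]
      exact hn
    rw [this, biUnion_empty] at hsub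
    rw [subset_empty.1 hsub]
    simp
  · have h1 : S.card ≤ n ^ (h + 1) * (Hv.card ^ (h + 1) * N ^ (n - (h + 1))) := by
      refine (card_le_card hsub).trans ((card_biUnion_le_card_mul _ _ _ fun H hH =>
        (hcard H hH).le).trans (Nat.mul_le_mul_right _ ?_))
      rw [card_powersetCard, card_univ, Fintype.card_fin]
      exact Nat.choose_le_pow n (h + 1)
    calc S.card * N ^ (h + 1) ≤
          n ^ (h + 1) * (Hv.card ^ (h + 1) * N ^ (n - (h + 1))) * N ^ (h + 1) :=
          Nat.mul_le_mul_right _ h1
      _ = n ^ (h + 1) * Hv.card ^ (h + 1) * (N ^ (n - (h + 1)) * N ^ (h + 1)) := by ring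
      _ = n ^ (h + 1) * Hv.card ^ (h + 1) * N ^ n := by
          rw [← pow_add, Nat.sub_add_cancel hn]
      _ ≤ n ^ (h + 1) * (n ^ e) ^ (h + 1) * N ^ n :=
          Nat.mul_le_mul_right _ (Nat.mul_le_mul_left _ (Nat.pow_le_pow_left hH _))
      _ = n ^ ((e + 1) * (h + 1)) * N ^ n := by
          rw [← mul_pow, ← pow_succ', ← pow_mul]

open Classical in
/-- **A small set contains few tuples of entries of a random table.** -/
theorem tab (hn : 1 ≤ n) (e h : ℕ) : ∀ (k b : ℕ) (Z : Finset (Fin k → W)),
    Z.card < n ^ (e * b) →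
    (univ.filter (fun r : Fin k → Fin n → W => (h + 1) ^ k * n ^ b < Gt r Z)).card *
      Fintype.card W ^ (h + 1) ≤
      k * n ^ k * n ^ ((e + 1) * (h + 1)) * Fintype.card (Fin k → Fin n → W) := by
  intro k
  induction k with
  | zero =>
    intro b Z _
    have : univ.filter (fun r : Fin 0 → Fin n → W => (h + 1) ^ 0 * n ^ b < Gt r Z) = ∅ := by
      rw [filter_eq_empty_iff]
      intro r _ hlt
      have h1 : Gt r Z ≤ 1 := by
        unfold Gt
        refine (card_filter_le _ _).trans ?_
        simp
      have h2 : 1 ≤ n ^ b := Nat.one_le_pow _ _ hn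
      rw [pow_zero, one_mul] at hlt
      omega
    rw [this]
    simp
  | succ k ih =>
    intro b Z hZ
    set N := Fintype.card W with hN
    set tot := Fintype.card (Fin k → Fin n → W) with htot
    have htot' : Fintype.card (Fin (k + 1) → Fin n → W) = N ^ n * tot := by
      rw [htot]
      simp only [Fintype.card_fun, Fintype.card_fin]
      rw [pow_succ]
      ring
    rcases b with _ | b
    · have hZ0 : Z = ∅ := by
        rw [mul_zero, pow_zero] at hZ
        exact card_eq_zero.1 (by omega)
      have : univ.filter (fun r : Fin (k + 1) → Fin n → W =>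
          (h + 1) ^ (k + 1) * n ^ 0 < Gt r Z) = ∅ := by
        rw [filter_eq_empty_iff]
        intro r _ hlt
        have h1 : Gt r Z = 0 := by
          unfold Gt
          rw [hZ0]
          simp
        omega
      rw [this]
      simp
    · rw [card_cons, htot']
      set Hv : Finset W := univ.filter (fun w => n ^ (e * b) ≤ (lk Z w).card) with hHv
      have hHvc : Hv.card ≤ n ^ e := by
        have h1 : Hv.card * n ^ (e * b) ≤ Z.card := by
          rw [sum_lk Z]
          calc Hv.card * n ^ (e * b) = ∑ w ∈ Hv, n ^ (e * b) := by rw [sum_const, smul_eq_mul]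
            _ ≤ ∑ w ∈ Hv, (lk Z w).card := sum_le_sum fun w hw => (mem_filter.1 hw).2
            _ ≤ ∑ w, (lk Z w).card := sum_le_sum_of_subset (subset_univ _)
        have h2 : Hv.card * n ^ (e * b) < n ^ e * n ^ (e * b) := by
          refine h1.trans_lt (hZ.trans_le (le_of_eq ?_))
          rw [← pow_add]
          congr 1
          ring
        exact (Nat.lt_of_mul_lt_mul_right h2).le
      set Cc := k * n ^ k * n ^ ((e + 1) * (h + 1)) * tot with hCc
      have hgood : ∀ r0 : Fin n → W, (univ.filter (fun i => r0 i ∈ Hv)).card ≤ h →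
          (univ.filter (fun r : Fin k → Fin n → W => (h + 1) ^ (k + 1) * n ^ (b + 1) <
            Gt (Fin.cons r0 r : Fin (k + 1) → Fin n → W) Z)).card * N ^ (h + 1) ≤ n * Cc := by
        intro r0 hr0
        set Bi : Fin n → Finset (Fin k → Fin n → W) := fun i =>
          if r0 i ∈ Hv then univ.filter (fun r => (h + 1) ^ k * n ^ (b + 1) < Gt r (lk Z (r0 i)))
          else univ.filter (fun r => (h + 1) ^ k * n ^ b < Gt r (lk Z (r0 i))) with hBi
        have hBic : ∀ i, (Bi i).card * N ^ (h + 1) ≤ Cc := by
          intro i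
          rw [hBi]
          by_cases hi : r0 i ∈ Hv
          · simp only [if_pos hi]
            exact ih (b + 1) _ ((lk_le Z _).trans_lt hZ)
          · simp only [if_neg hi]
            refine ih b _ ?_
            by_contra hcon
            exact hi (mem_filter.2 ⟨mem_univ _, by omega⟩)
        have hsub : univ.filter (fun r : Fin k → Fin n → W => (h + 1) ^ (k + 1) * n ^ (b + 1) <
            Gt (Fin.cons r0 r : Fin (k + 1) → Fin n → W) Z) ⊆ univ.biUnion Bi := by
          intro r hr
          by_contra hcon
          rw [mem_biUnion] at hcon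
          push Not at hcon
          have hlt := (mem_filter.1 hr).2
          rw [Gt_cons] at hlt
          have hle : ∀ i : Fin n, Gt r (lk Z (r0 i)) ≤
              (if r0 i ∈ Hv then (h + 1) ^ k * n ^ (b + 1) else 0) + (h + 1) ^ k * n ^ b := by
            intro i
            have h1 := hcon i (mem_univ i)
            rw [hBi] at h1
            by_cases hi : r0 i ∈ Hv
            · simp only [if_pos hi] at h1 ⊢
              rw [mem_filter] at h1
              push Not at h1
              exact (h1 (mem_univ r)).trans (Nat.le_add_right _ _)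
            · simp only [if_neg hi] at h1 ⊢
              rw [mem_filter] at h1
              push Not at h1
              rw [zero_add]
              exact h1 (mem_univ r)
          have h2 := sum_le_sum fun i (_ : i ∈ (univ : Finset (Fin n))) => hle i
          rw [sum_add_distrib, ← sum_filter, sum_const, sum_const, card_univ, Fintype.card_fin,
            smul_eq_mul, smul_eq_mul] at h2
          have h3 := Nat.mul_le_mul_right ((h + 1) ^ k * n ^ (b + 1)) hr0
          have h4 : (h + 1) ^ (k + 1) * n ^ (b + 1) = h * ((h + 1) ^ k * n ^ (b + 1)) +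
              n * ((h + 1) ^ k * n ^ b) := by
            rw [pow_succ, pow_succ]
            ring
          omega
        calc _ ≤ (∑ i : Fin n, (Bi i).card) * N ^ (h + 1) :=
              Nat.mul_le_mul_right _ ((card_le_card hsub).trans card_biUnion_le)
          _ = ∑ i : Fin n, (Bi i).card * N ^ (h + 1) := sum_mul _ _ _
          _ ≤ ∑ _i : Fin n, Cc := sum_le_sum fun i _ => hBic i
          _ = n * Cc := by rw [sum_const, card_univ, Fintype.card_fin, smul_eq_mul]
      have hall : ∀ r0 : Fin n → W, (univ.filter (fun r : Fin k → Fin n → W =>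
          (h + 1) ^ (k + 1) * n ^ (b + 1) <
            Gt (Fin.cons r0 r : Fin (k + 1) → Fin n → W) Z)).card * N ^ (h + 1) ≤
          n * Cc + (if h < (univ.filter (fun i => r0 i ∈ Hv)).card then tot * N ^ (h + 1)
            else 0) := by
        intro r0
        by_cases hr0 : h < (univ.filter (fun i => r0 i ∈ Hv)).card
        · rw [if_pos hr0]
          refine le_trans (Nat.mul_le_mul_right _ ((card_filter_le _ _).trans ?_))
            (Nat.le_add_left _ _)
          rw [card_univ]
        · rw [if_neg hr0, add_zero]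
          exact hgood r0 (by omega)
      rw [sum_mul]
      refine (sum_le_sum fun r0 _ => hall r0).trans ?_
      rw [sum_add_distrib, sum_const, card_univ, ← sum_filter, sum_const, smul_eq_mul, smul_eq_mul]
      have h5 := heavy (n := n) (W := W) e h hHvc
      have h6 : Fintype.card (Fin n → W) = N ^ n := by
        rw [Fintype.card_fun, Fintype.card_fin]
      rw [h6]
      have h7 : (univ.filter (fun r : Fin n → W =>
          h < (univ.filter (fun i => r i ∈ Hv)).card)).card * (tot * N ^ (h + 1)) ≤
          tot * (n ^ ((e + 1) * (h + 1)) * N ^ n) := by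
        calc _ = tot * ((univ.filter (fun r : Fin n → W =>
            h < (univ.filter (fun i => r i ∈ Hv)).card)).card * N ^ (h + 1)) := by ring
          _ ≤ _ := Nat.mul_le_mul_left _ h5
      refine (Nat.add_le_add_left h7 _).trans ?_
      have h8 : 1 ≤ n ^ (k + 1) := Nat.one_le_pow _ _ hn
      calc N ^ n * (n * Cc) + tot * (n ^ ((e + 1) * (h + 1)) * N ^ n)
          = (k * n ^ (k + 1) + 1) * (n ^ ((e + 1) * (h + 1)) * (N ^ n * tot)) := by
            rw [hCc, pow_succ]
            ring
        _ ≤ (k * n ^ (k + 1) + n ^ (k + 1)) * (n ^ ((e + 1) * (h + 1)) * (N ^ n * tot)) :=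
            Nat.mul_le_mul_right _ (Nat.add_le_add_left h8 _)
        _ = (k + 1) * n ^ (k + 1) * n ^ ((e + 1) * (h + 1)) * (N ^ n * tot) := by ring

end Pool.Agent.TH678.SQ
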