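import Pool.Agent.TH678.SQ.Enc
import Pool.Agent.TH678.SQ.Tab

/-! A good set and a good table -/

set_option autoImplicit false

namespace Pool.Agent.TH678.SQ

open Finset

variable {W : Type} [Fintype W] [DecidableEq W] {n : ℕ}

theorem card_zero {U : Type} [Fintype U] [DecidableEq U] {P : ℕ} (u : U) :
    (univ.filter (fun a : U → Fin (P + 1) => a u = 0)).card * (P + 1) =
      Fintype.card (U → Fin (P + 1)) := by
  have h1 : univ.filter (fun a : U → Fin (P + 1) => a u = 0) =
      Fintype.piFinset (fun x : U => if x = u then {0} else univ) := by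
    ext a
    rw [mem_filter, Fintype.mem_piFinset]
    constructor
    · rintro ⟨_, h⟩ x
      by_cases hx : x = u
      · rw [if_pos hx, hx, h]
        exact mem_singleton_self _
      · rw [if_neg hx]
        exact mem_univ _
    · intro h
      have := h u
      rw [if_pos rfl, mem_singleton] at this
      exact ⟨mem_univ _, this⟩
  rw [h1, Fintype.card_piFinset]
  have h6 : ∀ x : U, (if x = u then ({0} : Finset (Fin (P + 1))) else univ).card =
      if x = u then 1 else P + 1 := by
    intro x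
    split_ifs
    · rw [card_singleton]
    · rw [card_univ, Fintype.card_fin]
  rw [prod_congr rfl fun x _ => h6 x, prod_ite, prod_const_one, one_mul, prod_const,
    filter_ne' univ u, card_erase_of_mem (mem_univ u), card_univ, ← pow_succ, Fintype.card_fun,
    Fintype.card_fin]
  congr 1
  have : 0 < Fintype.card U := Fintype.card_pos_iff.2 ⟨u⟩
  omega

theorem exist {k s h b P M e : ℕ} (hn : 1 ≤ n) {I : Type} (Y : Finset I)
    (φ : I → Finset (Fin k → W) → Prop) (hφ : ∀ i ∈ Y, Cert s (φ i))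
    (hM : 2 * (h * h * s) ≤ M) (hM0 : 1 ≤ M) (hMn : M ≤ n ^ (e * b)) (hb : 2 ≤ n ^ (e * b))
    (h1 : 4 * (Y.card * (2 * h ^ h * ((P + 1) ^ h * s ^ h))) ≤ M ^ h)
    (h2 : 4 * n ^ k ≤ P + 1)
    (h3 : 4 * ((Y.card + Fintype.card (Fin k → W)) * (k * n ^ k * n ^ ((e + 1) * (h + 1)))) ≤
      Fintype.card W ^ (h + 1)) (hW : 0 < Fintype.card W) :
    ∃ (D : Finset (Fin k → W)) (r : Fin k → Fin n → W), (∀ ι, zr r ι ∉ D) ∧
      (∀ i ∈ Y, φ i D ∨ Gt r (Zs (φ i) D) ≤ (h + 1) ^ k * n ^ b) ∧
      ∀ u, Gt r {u} ≤ (h + 1) ^ k * n ^ b := by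
  classical
  set N := Fintype.card W with hN
  set cA := Fintype.card ((Fin k → W) → Fin (P + 1)) with hcA
  set cR := Fintype.card (Fin k → Fin n → W) with hcR
  have hApos : 0 < cA := by
    rw [hcA, Fintype.card_fun, Fintype.card_fin]
    positivity
  have hRpos : 0 < cR := by
    rw [hcR]
    simp only [Fintype.card_fun, Fintype.card_fin]
    positivity
  -- the first bad event
  set A1 : Finset ((Fin k → W) → Fin (P + 1)) := Y.biUnion (fun i =>
    univ.filter (fun a : (Fin k → W) → Fin (P + 1) => ¬ φ i (Dz a) ∧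
    M ≤ (Zs (φ i) (Dz a)).card)) with hA1
  have hA1c : 4 * A1.card ≤ cA := by
    have e1 : ∀ i ∈ Y, (univ.filter (fun a : (Fin k → W) → Fin (P + 1) => ¬ φ i (Dz a) ∧
        M ≤ (Zs (φ i) (Dz a)).card)).card * M ^ h ≤
        2 * h ^ h * ((P + 1) ^ h * ((P + 1) ^ Fintype.card (Fin k → W) * s ^ h)) :=
      fun i hi => bad_le (hφ i hi) hM hM0 _ fun a ha => (mem_filter.1 ha).2
    have e2 : A1.card * M ^ h ≤ Y.card *
        (2 * h ^ h * ((P + 1) ^ h * ((P + 1) ^ Fintype.card (Fin k → W) * s ^ h))) := by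
      calc A1.card * M ^ h ≤ (∑ i ∈ Y, (univ.filter (fun a : (Fin k → W) → Fin (P + 1) =>
          ¬ φ i (Dz a) ∧ M ≤ (Zs (φ i) (Dz a)).card)).card) * M ^ h :=
            Nat.mul_le_mul_right _ card_biUnion_le
        _ = ∑ i ∈ Y, (univ.filter (fun a : (Fin k → W) → Fin (P + 1) => ¬ φ i (Dz a) ∧
          M ≤ (Zs (φ i) (Dz a)).card)).card * M ^ h := sum_mul _ _ _
        _ ≤ ∑ i ∈ Y, (2 * h ^ h *
            ((P + 1) ^ h * ((P + 1) ^ Fintype.card (Fin k → W) * s ^ h))) := sum_le_sum e1
        _ = _ := by rw [sum_const, smul_eq_mul]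
    have e3 : cA = (P + 1) ^ Fintype.card (Fin k → W) := by
      rw [hcA, Fintype.card_fun, Fintype.card_fin]
    have hMp : 0 < M ^ h := by positivity
    refine Nat.le_of_mul_le_mul_right ?_ hMp
    calc 4 * A1.card * M ^ h = 4 * (A1.card * M ^ h) := by ring
      _ ≤ 4 * (Y.card *
        (2 * h ^ h * ((P + 1) ^ h * ((P + 1) ^ Fintype.card (Fin k → W) * s ^ h)))) :=
          Nat.mul_le_mul_left _ e2
      _ = (P + 1) ^ Fintype.card (Fin k → W) *
          (4 * (Y.card * (2 * h ^ h * ((P + 1) ^ h * s ^ h)))) := by ring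
      _ ≤ (P + 1) ^ Fintype.card (Fin k → W) * M ^ h := Nat.mul_le_mul_left _ h1
      _ = cA * M ^ h := by rw [e3]
  -- the second bad event
  have hB2 : ∀ r : Fin k → Fin n → W,
      4 * (univ.filter (fun a : (Fin k → W) → Fin (P + 1) => ∃ ι, a (zr r ι) = 0)).card ≤
      cA := by
    intro r
    have e1 : univ.filter (fun a : (Fin k → W) → Fin (P + 1) => ∃ ι, a (zr r ι) = 0) ⊆
        (univ : Finset (Fin k → Fin n)).biUnion
          (fun ι => univ.filter (fun a : (Fin k → W) → Fin (P + 1) => a (zr r ι) = 0)) := by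
      intro a ha
      obtain ⟨ι, hι⟩ := (mem_filter.1 ha).2
      exact mem_biUnion.2 ⟨ι, mem_univ _, mem_filter.2 ⟨mem_univ _, hι⟩⟩
    have e2 := (card_le_card e1).trans card_biUnion_le
    have e3 : (∑ ι : Fin k → Fin n,
        (univ.filter (fun a : (Fin k → W) → Fin (P + 1) => a (zr r ι) = 0)).card) * (P + 1) =
        n ^ k * cA := by
      rw [sum_mul, sum_congr rfl fun ι _ => card_zero (P := P) (zr r ι), sum_const, card_univ,
        Fintype.card_fun, Fintype.card_fin, Fintype.card_fin, smul_eq_mul]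
    have hP : 0 < P + 1 := by omega
    refine Nat.le_of_mul_le_mul_right ?_ hP
    calc 4 * (univ.filter (fun a : (Fin k → W) → Fin (P + 1) => ∃ ι, a (zr r ι) = 0)).card *
          (P + 1) ≤ 4 * (∑ ι : Fin k → Fin n,
            (univ.filter (fun a : (Fin k → W) → Fin (P + 1) => a (zr r ι) = 0)).card) *
            (P + 1) := Nat.mul_le_mul_right _ (Nat.mul_le_mul_left _ e2)
      _ = 4 * ((∑ ι : Fin k → Fin n,
            (univ.filter (fun a : (Fin k → W) → Fin (P + 1) => a (zr r ι) = 0)).card) *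
            (P + 1)) := by ring
      _ = (4 * n ^ k) * cA := by rw [e3]; ring
      _ ≤ (P + 1) * cA := Nat.mul_le_mul_right _ h2
      _ = _ := mul_comm _ _
  -- the third bad event
  set X := (h + 1) ^ k * n ^ b with hX
  have hZ : ∀ Z : Finset (Fin k → W), Z.card < n ^ (e * b) →
      (univ.filter (fun r : Fin k → Fin n → W => X < Gt r Z)).card * N ^ (h + 1) ≤
      k * n ^ k * n ^ ((e + 1) * (h + 1)) * cR := fun Z hZ => by
    have := tab (n := n) (W := W) hn e h k b Z hZ
    convert this using 3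
  set B3 : ((Fin k → W) → Fin (P + 1)) → Finset (Fin k → Fin n → W) := fun a =>
    (Y.filter (fun i => (Zs (φ i) (Dz a)).card < M)).biUnion
      (fun i => univ.filter (fun r : Fin k → Fin n → W => X < Gt r (Zs (φ i) (Dz a)))) ∪
    (univ : Finset (Fin k → W)).biUnion
      (fun u => univ.filter (fun r : Fin k → Fin n → W => X < Gt r {u})) with hB3
  have hB3c : ∀ a, 4 * (B3 a).card ≤ cR := by
    intro a
    set Cc := k * n ^ k * n ^ ((e + 1) * (h + 1)) with hCc
    have e1 : (B3 a).card * N ^ (h + 1) ≤ (Y.card + Fintype.card (Fin k → W)) * (Cc * cR) := by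
      refine (Nat.mul_le_mul_right _ (card_union_le _ _)).trans ?_
      rw [add_mul, add_mul]
      refine Nat.add_le_add ?_ ?_
      · calc _ ≤ (∑ i ∈ Y.filter (fun i => (Zs (φ i) (Dz a)).card < M),
            (univ.filter (fun r : Fin k → Fin n → W =>
              X < Gt r (Zs (φ i) (Dz a)))).card) * N ^ (h + 1) :=
              Nat.mul_le_mul_right _ card_biUnion_le
          _ = ∑ i ∈ Y.filter (fun i => (Zs (φ i) (Dz a)).card < M),
            (univ.filter (fun r : Fin k → Fin n → W =>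
              X < Gt r (Zs (φ i) (Dz a)))).card * N ^ (h + 1) := sum_mul _ _ _
          _ ≤ ∑ i ∈ Y.filter (fun i => (Zs (φ i) (Dz a)).card < M), Cc * cR :=
              sum_le_sum fun i hi => hZ _ ((mem_filter.1 hi).2.trans_le hMn)
          _ = (Y.filter (fun i => (Zs (φ i) (Dz a)).card < M)).card * (Cc * cR) := by
              rw [sum_const, smul_eq_mul]
          _ ≤ _ := Nat.mul_le_mul_right _ (card_filter_le _ _)
      · calc _ ≤ (∑ u : Fin k → W,
            (univ.filter (fun r : Fin k → Fin n → W => X < Gt r {u})).card) * N ^ (h + 1) :=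
              Nat.mul_le_mul_right _ card_biUnion_le
          _ = ∑ u : Fin k → W,
            (univ.filter (fun r : Fin k → Fin n → W => X < Gt r {u})).card * N ^ (h + 1) :=
              sum_mul _ _ _
          _ ≤ ∑ _u : Fin k → W, Cc * cR :=
              sum_le_sum fun u _ => hZ _ (by rw [card_singleton]; omega)
          _ = _ := by rw [sum_const, smul_eq_mul, card_univ]
    have hNp : 0 < N ^ (h + 1) := by positivity
    refine Nat.le_of_mul_le_mul_right ?_ hNp
    calc 4 * (B3 a).card * N ^ (h + 1) = 4 * ((B3 a).card * N ^ (h + 1)) := by ring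
      _ ≤ 4 * ((Y.card + Fintype.card (Fin k → W)) * (Cc * cR)) := Nat.mul_le_mul_left _ e1
      _ = 4 * ((Y.card + Fintype.card (Fin k → W)) * Cc) * cR := by ring
      _ ≤ N ^ (h + 1) * cR := Nat.mul_le_mul_right _ h3
      _ = _ := mul_comm _ _
  by_contra hcon
  push Not at hcon
  have key : ∀ a : (Fin k → W) → Fin (P + 1), cR ≤ (if a ∈ A1 then cR else 0) +
      (∑ r : Fin k → Fin n → W, if ∃ ι, a (zr r ι) = 0 then 1 else 0) + (B3 a).card := by
    intro a
    by_cases ha : a ∈ A1
    · rw [if_pos ha]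
      omega
    · rw [if_neg ha, zero_add, ← card_filter]
      have hsub : (univ : Finset (Fin k → Fin n → W)) ⊆
          univ.filter (fun r : Fin k → Fin n → W => ∃ ι, a (zr r ι) = 0) ∪ B3 a := by
        intro r _
        rw [mem_union]
        by_cases h4 : ∃ ι, a (zr r ι) = 0
        · exact Or.inl (mem_filter.2 ⟨mem_univ _, h4⟩)
        · right
          push Not at h4
          rw [hB3, mem_union]
          by_cases h5 : ∀ i ∈ Y, φ i (Dz a) ∨ Gt r (Zs (φ i) (Dz a)) ≤ X
          · right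
            obtain ⟨u, hu⟩ := hcon (Dz a) r (fun ι h => h4 ι (mem_Dz.1 h)) h5
            exact mem_biUnion.2 ⟨u, mem_univ _, mem_filter.2 ⟨mem_univ _, hu⟩⟩
          · left
            push Not at h5
            obtain ⟨i, hi, h6, h7⟩ := h5
            refine mem_biUnion.2 ⟨i, mem_filter.2 ⟨hi, ?_⟩, mem_filter.2 ⟨mem_univ _, h7⟩⟩
            by_contra h8
            exact ha (mem_biUnion.2 ⟨i, hi, mem_filter.2 ⟨mem_univ _, h6, by omega⟩⟩)
      have h6 := (card_le_card hsub).trans (card_union_le _ _)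
      rwa [card_univ] at h6
  have hsum := sum_le_sum fun a (_ : a ∈ (univ : Finset ((Fin k → W) → Fin (P + 1)))) => key a
  rw [sum_add_distrib, sum_add_distrib, sum_const, card_univ, smul_eq_mul, ← sum_filter,
    sum_const, smul_eq_mul, sum_comm] at hsum
  have e1 : (univ.filter (fun a : (Fin k → W) → Fin (P + 1) => a ∈ A1)).card = A1.card := by
    congr 1
    ext a
    simp
  rw [e1] at hsum
  have e2 : 4 * (∑ r : Fin k → Fin n → W, ∑ a : (Fin k → W) → Fin (P + 1),
      if ∃ ι, a (zr r ι) = 0 then 1 else 0) ≤ cR * cA := by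
    rw [mul_sum]
    calc _ ≤ ∑ _r : Fin k → Fin n → W, cA := sum_le_sum fun r _ => by
          rw [← card_filter]
          exact hB2 r
      _ = cR * cA := by rw [sum_const, card_univ, smul_eq_mul]
  have e3 : 4 * (∑ a : (Fin k → W) → Fin (P + 1), (B3 a).card) ≤ cA * cR := by
    rw [mul_sum]
    calc _ ≤ ∑ _a : (Fin k → W) → Fin (P + 1), cR := sum_le_sum fun a _ => hB3c a
      _ = cA * cR := by rw [sum_const, card_univ, smul_eq_mul]
  have e4 : 4 * (A1.card * cR) ≤ cA * cR := by
    calc 4 * (A1.card * cR) = 4 * A1.card * cR := by ring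
      _ ≤ _ := Nat.mul_le_mul_right _ hA1c
  have e5 : 0 < cA * cR := Nat.mul_pos hApos hRpos
  have e6 : cR * cA = cA * cR := mul_comm _ _
  rw [e6] at e2
  rw [← hcA] at hsum
  omega

end Pool.Agent.TH678.SQ
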