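import Pool.Agent.TH678.SQ.Num
import Pool.Agent.TH678.SQ.Defs
import Pool.Agent.TH678.RS.Up

/-! The upper bounds -/

set_option autoImplicit false

namespace Pool.Agent.TH678.SQ

open Pool.Agent.NPC Pool.Agent.H622R2 Pool.Agent.H620R2.Gauge Pool.Agent.H622R2.Exp
  Pool.Agent.TH678.ETH Pool.Agent.TH678.SETH Pool.Agent.TH678.RW Pool.Agent.TH678.WP Filter
  Pool.Agent.TH678.RS

variable {g : ℕ → Alg} {S : ℕ → Polynomial ℕ} {Φ : Oracle → Oracle}

theorem pow_bs_le (s : ℕ) : s ^ (bs s + 1) ≤ 2 ^ ((Nat.log 2 s + 1) * (bs s + 1)) := by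
  rw [pow_mul]
  exact Nat.pow_le_pow_left (Nat.lt_pow_succ_log_self (by norm_num) s).le _

theorem num1S (D : ℕ) : ∃ C : ℕ, ∀ n s : ℕ, s ≤ (n + 2) ^ D →
    s ^ (bs s + 1) ≤ 2 ^ 2 ^ (C * (Nat.sqrt (Nat.log 2 (n + 2)) + 1)) := by
  refine ⟨3 * D + 8, fun n s hs => ?_⟩
  set u := Nat.log 2 (n + 2) with hu
  set q := Nat.sqrt u with hq
  have h1 : u < (q + 1) * (q + 1) := Nat.lt_succ_sqrt u
  have h2 : Nat.log 2 s ≤ D * (u + 1) := by
    have e1 : s ≤ 2 ^ ((u + 1) * D) := by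
      rw [pow_mul]
      exact hs.trans (Nat.pow_le_pow_left (Nat.lt_pow_succ_log_self (by norm_num) _).le D)
    have := Nat.log_mono_right (b := 2) e1
    rw [Nat.log_pow (by norm_num)] at this
    rwa [mul_comm] at this
  have h3 : Nat.log 2 s ≤ D * ((q + 1) * (q + 1)) := h2.trans (Nat.mul_le_mul_left _ (by omega))
  have h4 : Nat.sqrt (Nat.log 2 s) ≤ (D + 1) * (q + 1) := by
    rw [← Nat.lt_succ_iff, Nat.sqrt_lt]
    refine lt_of_le_of_lt h3 ?_
    nlinarith [Nat.zero_le D, Nat.zero_le q]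
  have h5 : Nat.log 2 s + 1 ≤ 2 ^ ((D + 3) * (q + 1)) := by
    have e1 : q + 1 ≤ 2 ^ (q + 1) := Nat.lt_two_pow_self.le
    have e2 : D + 1 ≤ 2 ^ (D + 1) := Nat.lt_two_pow_self.le
    calc Nat.log 2 s + 1 ≤ (D + 1) * ((q + 1) * (q + 1)) := by nlinarith
      _ ≤ 2 ^ (D + 1) * (2 ^ (q + 1) * 2 ^ (q + 1)) :=
          Nat.mul_le_mul e2 (Nat.mul_le_mul e1 e1)
      _ = 2 ^ (D + 1 + (q + 1 + (q + 1))) := by rw [← pow_add, ← pow_add]
      _ ≤ 2 ^ ((D + 3) * (q + 1)) := Nat.pow_le_pow_right (by norm_num) (by nlinarith)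
  have h6 : bs s + 1 ≤ 2 ^ ((D + 2) * (q + 1)) := by
    have e1 : bs s ≤ 2 ^ ((D + 1) * (q + 1)) := Nat.pow_le_pow_right (by norm_num) h4
    have e2 : 1 ≤ 2 ^ ((D + 1) * (q + 1)) := Nat.one_le_two_pow
    calc bs s + 1 ≤ 2 * 2 ^ ((D + 1) * (q + 1)) := by omega
      _ = 2 ^ ((D + 1) * (q + 1) + 1) := (pow_succ' _ _).symm
      _ ≤ 2 ^ ((D + 2) * (q + 1)) := Nat.pow_le_pow_right (by norm_num) (by nlinarith)
  refine (pow_bs_le s).trans (Nat.pow_le_pow_right (by norm_num) ?_)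
  calc (Nat.log 2 s + 1) * (bs s + 1) ≤ 2 ^ ((D + 3) * (q + 1)) * 2 ^ ((D + 2) * (q + 1)) :=
        Nat.mul_le_mul h5 h6
    _ = 2 ^ ((2 * D + 5) * (q + 1)) := by rw [← pow_add]; congr 1; ring
    _ ≤ 2 ^ ((3 * D + 8) * (q + 1)) :=
        Nat.pow_le_pow_right (by norm_num) (Nat.mul_le_mul_right _ (by omega))

theorem num2S (r : ℕ) : ∃ E : ℕ, ∀ x t : ℕ, 2 ^ x ≤ t + 2 →
    (r * (2 * x + 2) + 1) * (2 ^ Nat.sqrt (r * (2 * x + 2)) + 1) ≤ t + E := by
  obtain ⟨y₁, hy₁⟩ := eventually_atTop.1 (ev_poly 1 2)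
  set y₀ := max y₁ (4 * r + 6) with hy₀
  refine ⟨(y₀ + 1) ^ 2 * (2 ^ y₀ + 1), fun x t hx => ?_⟩
  set y := Nat.sqrt (r * (2 * x + 2)) with hy
  have h1 : r * (2 * x + 2) < (y + 1) * (y + 1) := Nat.lt_succ_sqrt _
  have h1' : r * (2 * x + 2) + 1 ≤ (y + 1) ^ 2 := by rw [sq]; omega
  have h2 : y * y ≤ r * (2 * x + 2) := Nat.sqrt_le _
  rcases Nat.lt_or_ge y y₀ with h | h
  · refine le_trans (Nat.mul_le_mul (h1'.trans (Nat.pow_le_pow_left (by omega) 2)) ?_)
      (Nat.le_add_left _ _)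
    exact Nat.succ_le_succ (Nat.pow_le_pow_right (by norm_num) h.le)
  · have h3 : 4 * r + 6 ≤ y := (le_max_right _ _).trans h
    have h4 := hy₁ y ((le_max_left _ _).trans h)
    rw [one_mul] at h4
    have h5 : 2 * y + 2 ≤ x := by
      by_contra hcon
      have h6 : 2 * x + 2 ≤ 4 * (y + 1) := by omega
      have h7 := h2.trans (Nat.mul_le_mul_left r h6)
      nlinarith
    have h6 : 2 ^ (2 * y + 2) ≤ 2 ^ x := Nat.pow_le_pow_right (by norm_num) h5
    have h7 : 2 ^ (2 * y + 2) = 4 * (2 ^ y * 2 ^ y) := by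
      rw [← pow_add]
      ring
    have h8 : (r * (2 * x + 2) + 1) * (2 ^ y + 1) ≤ 2 ^ y * (2 ^ y + 1) :=
      Nat.mul_le_mul_right _ (h1'.trans h4.le)
    have h9 : 2 ≤ 2 ^ y := by
      calc 2 = 2 ^ 1 := rfl
        _ ≤ 2 ^ y := Nat.pow_le_pow_right (by norm_num) (by omega)
    have h10 : 2 ^ y * (2 ^ y + 1) + 2 ≤ 4 * (2 ^ y * 2 ^ y) := by nlinarith
    omega

/-- the factor -/
def FS (r E a : ℕ) : ℕ := 2 ^ ((r * (2 * a + 6) + 1) * (2 ^ (r * (2 * a + 6)) + 1) + (E + 1))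

theorem num3S (c D : ℕ) : ∃ r E : ℕ, ∀ a n s : ℕ,
    s ≤ ((a * (Nat.log 2 n + 1)) ^ c + 2) ^ D → s ^ (bs s + 1) ≤ FS r E a * (n + 1) := by
  set r := (c + 1) * D with hr
  obtain ⟨E, hE⟩ := num2S r
  refine ⟨r, E, fun a n s hs => ?_⟩
  set t := Nat.log 2 n + 1 with ht
  set la := Nat.log 2 (a + 2) with hla
  set lt := Nat.log 2 (t + 2) with hlt
  have h1 : (a * t) ^ c + 2 ≤ ((a + 2) * (t + 2)) ^ (c + 1) := by
    have e1 : (a * t) ^ c ≤ ((a + 2) * (t + 2)) ^ c :=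
      Nat.pow_le_pow_left (Nat.mul_le_mul (by omega) (by omega)) c
    have e2 : 1 ≤ ((a + 2) * (t + 2)) ^ c := Nat.one_le_pow _ _ (by positivity)
    have e3 : 4 ≤ (a + 2) * (t + 2) := Nat.mul_le_mul (show 2 ≤ a + 2 by omega)
      (show 2 ≤ t + 2 by omega)
    rw [pow_succ]
    nlinarith
  have h2 : (a + 2) * (t + 2) ≤ 2 ^ (la + lt + 2) := by
    have e1 : a + 2 < 2 ^ (la + 1) := Nat.lt_pow_succ_log_self (by norm_num) _
    have e2 : t + 2 < 2 ^ (lt + 1) := Nat.lt_pow_succ_log_self (by norm_num) _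
    calc (a + 2) * (t + 2) ≤ 2 ^ (la + 1) * 2 ^ (lt + 1) := Nat.mul_le_mul e1.le e2.le
      _ = 2 ^ (la + lt + 2) := by rw [← pow_add]; congr 1; ring
  have h3 : s ≤ 2 ^ (r * (la + lt + 2)) := by
    calc s ≤ ((a * t) ^ c + 2) ^ D := hs
      _ ≤ (((a + 2) * (t + 2)) ^ (c + 1)) ^ D := Nat.pow_le_pow_left h1 D
      _ = ((a + 2) * (t + 2)) ^ r := by rw [← pow_mul]
      _ ≤ (2 ^ (la + lt + 2)) ^ r := Nat.pow_le_pow_left h2 r
      _ = 2 ^ (r * (la + lt + 2)) := by rw [← pow_mul, mul_comm]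
  have h4 : Nat.log 2 s ≤ r * (la + lt + 2) := by
    have := Nat.log_mono_right (b := 2) h3
    rwa [Nat.log_pow (by norm_num)] at this
  have h8 : la ≤ a + 2 := Nat.log_le_self 2 _
  have h9 : (Nat.log 2 s + 1) * (bs s + 1) ≤
      (r * (2 * a + 6) + 1) * (2 ^ (r * (2 * a + 6)) + 1) + (t + E) := by
    rcases Nat.le_total lt la with hll | hll
    · refine le_trans ?_ (Nat.le_add_right _ _)
      have e1 : Nat.log 2 s ≤ r * (2 * a + 6) :=
        h4.trans (Nat.mul_le_mul_left _ (by omega))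
      have e2 : bs s ≤ 2 ^ (r * (2 * a + 6)) :=
        Nat.pow_le_pow_right (by norm_num) ((Nat.sqrt_le_self _).trans e1)
      exact Nat.mul_le_mul (by omega) (by omega)
    · refine le_trans ?_ (Nat.le_add_left _ _)
      have e1 : Nat.log 2 s ≤ r * (2 * lt + 2) :=
        h4.trans (Nat.mul_le_mul_left _ (by omega))
      have e2 : bs s ≤ 2 ^ Nat.sqrt (r * (2 * lt + 2)) :=
        Nat.pow_le_pow_right (by norm_num) (Nat.sqrt_le_sqrt e1)
      refine (Nat.mul_le_mul (by omega) (by omega)).trans (hE lt t ?_)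
      exact Nat.pow_log_le_self 2 (by omega)
  have h11 : 2 ^ t ≤ 2 * (n + 1) := by
    rw [ht, pow_succ]
    rcases Nat.eq_zero_or_pos n with h0 | h0
    · rw [h0]
      simp
    · have := Nat.pow_log_le_self 2 (show n ≠ 0 by omega)
      omega
  calc s ^ (bs s + 1) ≤ 2 ^ ((Nat.log 2 s + 1) * (bs s + 1)) := pow_bs_le s
    _ ≤ 2 ^ ((r * (2 * a + 6) + 1) * (2 ^ (r * (2 * a + 6)) + 1) + E + t) :=
        Nat.pow_le_pow_right (by norm_num) (by omega)
    _ = 2 ^ ((r * (2 * a + 6) + 1) * (2 ^ (r * (2 * a + 6)) + 1) + E) * 2 ^ t := pow_add _ _ _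
    _ ≤ 2 ^ ((r * (2 * a + 6) + 1) * (2 ^ (r * (2 * a + 6)) + 1) + E) * (2 * (n + 1)) :=
        Nat.mul_le_mul_left _ h11
    _ = FS r E a * (n + 1) := by
        unfold FS
        rw [← add_assoc, pow_succ]
        ring

theorem computable_FS (r E : ℕ) : Computable (FS r E) := by
  have h0 : Computable (fun a : ℕ => r * (2 * a + 6)) :=
    (Primrec.nat_mul.comp (Primrec.const r) (Primrec.nat_add.comp
      (Primrec.nat_mul.comp (Primrec.const 2) Primrec.id) (Primrec.const 6))).to_comp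
  have h1 : Computable (fun a : ℕ => 2 ^ (r * (2 * a + 6))) := computable_pow.comp h0
  have hm : Computable₂ (fun x y : ℕ => x * y) := Primrec.nat_mul.to_comp
  have ha : Computable₂ (fun x y : ℕ => x + y) := Primrec.nat_add.to_comp
  have h2 : Computable (fun a : ℕ =>
      (r * (2 * a + 6) + 1) * (2 ^ (r * (2 * a + 6)) + 1) + (E + 1)) :=
    ha.comp (hm.comp (ha.comp h0 (Computable.const 1)) (ha.comp h1 (Computable.const 1)))
      (Computable.const (E + 1))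
  exact computable_pow.comp h2

/-- the search problem is coded -/
theorem code_npB {b : ℕ → ℕ} (hg : Function.Surjective g) (hc : Cd g S b Φ) (B : Oracle)
    {L : Set (List Bool)} {V : List Bool → List Bool} {p : Polynomial ℕ} (hV : IsFP (Φ B) V)
    (hL : ∀ x, x ∈ L ↔ ∃ w : List Bool, w.length ≤ p.eval x.length ∧ V (pairBits w x) = [true]) :
    ∃ e D : ℕ, (∀ v : List Bool, (S e).eval (yv p v).length ≤ (v.length + 2) ^ D) ∧
      ∀ (v : List Bool) (i : ℕ), (S e).eval (yv p v).length ^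
        (b ((S e).eval (yv p v).length) + 1) ≤ i →
        (v ∈ L ↔ [Φ B (cS e i (yv p v))] = [true]) := by
  have hr : Poly (fun z : List Bool => pairBits (unpair z).1 (unpair (unpair z).2).2) :=
    poly_pairBits (Poly.fst poly_unpair) (Poly.snd (poly_unpair.comp (Poly.snd poly_unpair)))
  obtain ⟨M, hM⟩ := hV.precomp hr
  obtain ⟨e, rfl⟩ := hg M
  obtain ⟨D, _, hD⟩ := YAux.poly_bound ((S e).comp (2 * p + 1 + Polynomial.X))
  refine ⟨e, D, fun v => ?_, fun v i hi => ?_⟩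
  · have h := hD v.length
    simp only [Polynomial.eval_comp, Polynomial.eval_add, Polynomial.eval_mul,
      Polynomial.eval_ofNat, Polynomial.eval_one, Polynomial.eval_X] at h
    rw [length_yv]
    exact h
  · rw [hL v, List.cons.injEq, and_iff_left rfl, code_iffB hc B hM hi, par_yv]
    refine exists_congr fun w => and_congr_right fun _ => ?_
    simp only [yv, unpair_pairBits]

theorem np_timeS (hg : Function.Surjective g) (hc : Cd g S bs Φ)
    (B : Oracle) {L : Set (List Bool)} (hL : IsNP (Φ B) L) : InTimeS (Φ B) L := by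
  obtain ⟨V, p, hV, hL⟩ := hL
  obtain ⟨e, D, h1, h2⟩ := code_npB hg hc B hV hL
  obtain ⟨C, hC⟩ := num1S D
  refine ⟨C, fun z => [Φ B (cS e (unpair z).1.length (yv p (unpair z).2))],
    isFP_ask' _ (poly_code p e (UPoly.length (Poly.fst poly_unpair)) (Poly.snd poly_unpair)),
    fun x => ?_⟩
  simp only [unpair_pairBits, List.length_replicate]
  exact h2 x _ (hC _ _ (h1 x))

theorem m1_fptS (hg : Function.Surjective g) (hc : Cd g S bs Φ) (B : Oracle)
    {Q : Set (List Bool × ℕ)} (hQ : InM1 (Φ B) Q) : InFPT (Φ B) Q := by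
  obtain ⟨π, h, c, R, L, hπ, hh, hR, ⟨V, p, hV, hL⟩, hQ⟩ := hQ
  obtain ⟨e, D, h1, h2⟩ := code_npB hg hc B hV hL
  obtain ⟨r, E, hF⟩ := num3S c D
  have hin : Poly (fun z : List Bool => pairBits (unpair (unpair z).1).2 (unpair z).2) :=
    poly_pairBits (Poly.snd (poly_unpair.comp (Poly.fst poly_unpair))) (Poly.snd poly_unpair)
  have hq : Poly (fun Z : List Bool => cS e ((unpair (unpair (unpair Z).1).1).1.length *
      ((unpair (unpair Z).1).2.length + 1)) (yv p (unpair Z).2)) := by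
    have e0 : Poly (fun Z : List Bool => unpair (unpair Z).1) :=
      poly_unpair.comp (Poly.fst poly_unpair)
    exact poly_code p e (UPoly.mul (UPoly.length (Poly.fst (poly_unpair.comp (Poly.fst e0))))
      (UPoly.add (UPoly.length (Poly.snd e0)) (UPoly.const 1))) (Poly.snd poly_unpair)
  obtain ⟨F, hF0, hFP⟩ : ∃ F : List Bool → List Bool, (∀ z, F z = [Φ B (cS e
      ((unpair (unpair z).1).1.length * ((unpair z).2.length + 1))
      (yv p (R (pairBits (unpair (unpair z).1).2 (unpair z).2))))]) ∧ IsFP (Φ B) F := by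
    refine ⟨_, fun z => ?_, IsFP.comp (isFP_ask' (Φ B) hq)
      (IsFP.pair (IsFP.of_poly (A := Φ B) Poly.id) (hR.precomp hin))⟩
    simp only [unpair_pairBits]
  refine ⟨fun k => pairBits (List.replicate (FS r E (h k)) true) (π k), {z | F z = [true]}, ?_,
    ⟨_, hFP, fun z => Iff.rfl⟩, ?_⟩
  · exact computable_pairBits.comp
      (computable_replicate.comp ((computable_FS r E).comp hh)) hπ
  · intro x k
    obtain ⟨h3, h4⟩ := hQ x k
    rw [h4, Set.mem_ofPred_eq, hF0]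
    simp only [unpair_pairBits, List.length_replicate]
    refine h2 _ _ (hF _ _ _ ((h1 _).trans (Nat.pow_le_pow_left ?_ D)))
    omega

end Pool.Agent.TH678.SQ
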