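import Pool.Agent.TH678.SQ.Low
import Pool.Agent.TH678.SQ.Up

/-! A relativized separation of `M[1]` and `W[1]` with short questions -/

set_option autoImplicit false

namespace Pool.Agent.TH678.SQ

open Pool.Agent.NPC Pool.Agent.H622R2 Pool.Agent.H620R2.Gauge Pool.Agent.H622R2.Exp
  Pool.Agent.TH678.ETH Pool.Agent.TH678.SETH Pool.Agent.TH678.RW Pool.Agent.TH678.WP
  Pool.Agent.TH678.RS

theorem main : ∃ A : Oracle, SeparatedS A := by
  obtain ⟨g, hg⟩ := exists_alg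
  obtain ⟨S, Φ, hc⟩ := exists_cd g bs
  obtain ⟨B, hB⟩ := low2 hc
  exact ⟨Φ B, fun L hL => np_timeS hg hc B hL, fun Q hQ => m1_fptS hg hc B hQ, hB.p, hB.np,
    hB.det, hB.ndet⟩

end Pool.Agent.TH678.SQ
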