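import Pool.Agent.TH678.SQ.Num
import Pool.Agent.TH678.SQ.Mach
import Pool.Agent.TH678.RS.Low

/-! The lower bounds -/

set_option autoImplicit false

namespace Pool.Agent.TH678.SQ

open Pool.Agent.NPC Pool.Agent.H622R2 Pool.Agent.H620R2.Gauge Pool.Agent.H622R2.Exp
  Pool.Agent.TH678.ETH Pool.Agent.TH678.SETH Pool.Agent.TH678.RW Pool.Agent.TH678.WP Filter
  Pool.Agent.TH678.RS

variable {g : ℕ → Alg} {S : ℕ → Polynomial ℕ} {b : ℕ → ℕ} {Φ : Oracle → Oracle}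

/-- the type of the tables -/
abbrev Tb (κ e m : ℕ) : Type := Fin κ → Fin (2 ^ m) → Fin ((e + 2) * m) → Bool

/-- **Infinitely many requirements.** -/
theorem exists_generic2 (hc : Cd g S b Φ) {J : Type} [Countable J] (κ ee : J → ℕ)
    (No : ∀ (j : J) (m : ℕ), Tb (κ j) (ee j) m → Oracle → Prop) (T : J → ℕ → ℕ)
    (hκ : ∀ j, 0 < κ j) (hF : ∀ j m r, Fw (T j m) (No j m r))
    (hev : ∀ j n, ∃ m, n ≤ m ∧ ∃ σ h bb P M,
      Nums b (ee j) (κ j) ((ee j + 2) * m) (2 ^ m) σ (T j m) h bb P M) :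
    ∃ B : Oracle, ∀ j, ∃ m r, ¬ (No j m r (Φ B) ↔ ¬ HitR (Φ B) r) := by
  set G : J → Set Oracle := fun j => {B | ∃ m r, ¬ (No j m r (Φ B) ↔ ¬ HitR (Φ B) r)} with hG
  have hopen : ∀ j, IsOpen (G j) := by
    intro j
    have e : G j = ⋃ m, ⋃ r, {B | ¬ (No j m r (Φ B) ↔ ¬ HitR (Φ B) r)} := by
      ext B
      simp [hG]
    rw [e]
    refine isOpen_iUnion fun m => isOpen_iUnion fun r => isOpen_of_loc
      (max (T j m) (κ j * ((ee j + 2) * m) + 1)) fun B B' hB h => ?_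
    have h1 : HitR (Φ B) r ↔ HitR (Φ B') r := by
      unfold HitR
      refine exists_congr fun ι => ?_
      rw [phi_loc hc hB (ls (zr r ι)) (by rw [length_ls]; exact le_max_right _ _)]
    have h2 : ∀ B B' : Oracle, (∀ u : List Bool,
        u.length ≤ max (T j m) (κ j * ((ee j + 2) * m) + 1) → B u = B' u) →
        No j m r (Φ B) → No j m r (Φ B') := by
      intro B B' hB hNo
      obtain ⟨Q, _, hQ2, hQ3⟩ := hF j m r (Φ B) hNo
      refine hQ3 _ fun q hq => ?_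
      exact (phi_loc hc hB q ((hQ2 q hq).trans (le_max_left _ _))).symm
    have h3 : No j m r (Φ B) ↔ No j m r (Φ B') :=
      ⟨h2 B B' hB, h2 B' B fun u hu => (hB u hu).symm⟩
    rw [Set.mem_ofPred_eq] at h ⊢
    rwa [← h1, ← h3]
  have hdense : ∀ j, Dense (G j) := by
    intro j
    rw [dense_iff_inter_open]
    rintro U hU ⟨B₀, hB₀⟩
    obtain ⟨I, u, hu1, hu2⟩ := isOpen_pi_iff.1 hU B₀ hB₀
    obtain ⟨m, hm, σ, h, bb, P, M, hnum⟩ := hev j (I.sup List.length)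
    obtain ⟨r, B, hB1, hB2⟩ := escape2 hc hnum (hF j m) B₀
    refine ⟨B, hu2 fun z hz => ?_, m, r, hB2⟩
    have h3 : z.length ≤ I.sup List.length := Finset.le_sup (f := List.length) hz
    have h4 : m ≤ κ j * ((ee j + 2) * m) := by
      calc m = 1 * (1 * m) := by ring
        _ ≤ κ j * ((ee j + 2) * m) :=
            Nat.mul_le_mul (hκ j) (Nat.mul_le_mul_right _ (by omega))
    rw [hB1 z (by omega)]
    exact (hu1 z hz).2
  obtain ⟨B, hB⟩ := (dense_iInter_of_isOpen hopen hdense).nonempty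
  exact ⟨B, fun j => Set.mem_iInter.1 hB j⟩

theorem tm_le2 (C c e m : ℕ) {κ : ℕ} (hκ : 0 < κ) (r : Tb κ e m) : tm C c (Xq r) ≤
    (C * (120 * (κ + 2) ^ 2 * (e + 2) + 1) ^ c) * ((m + 1) * 2 ^ m) ^ c := by
  unfold tm
  rw [mul_assoc, ← mul_pow]
  refine Nat.mul_le_mul_left _ (Nat.pow_le_pow_left ?_ c)
  have h1 := length_Xq e m hκ r
  have h2 := one_le_mm m
  have h3 : (120 * (κ + 2) ^ 2 * (e + 2) + 1) * ((m + 1) * 2 ^ m) =
      120 * (κ + 2) ^ 2 * (e + 2) * ((m + 1) * 2 ^ m) + (m + 1) * 2 ^ m := by ring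
  omega

theorem pb_le2 (τ : List Bool) (d e m : ℕ) {κ : ℕ} (hκ : 0 < κ) (r : Tb κ e m) :
    ((pairBits τ (Xq r)).length + 2) ^ d ≤
    (2 * τ.length + 3 + 120 * (κ + 2) ^ 2 * (e + 2)) ^ d * ((m + 1) * 2 ^ m) ^ d := by
  rw [← mul_pow]
  refine Nat.pow_le_pow_left ?_ d
  have h1 := length_Xq e m hκ r
  have h2 := one_le_mm m
  rw [length_pairBits]
  have h3 : 2 * τ.length + 3 ≤ (2 * τ.length + 3) * ((m + 1) * 2 ^ m) :=
    Nat.le_mul_of_pos_right _ (by omega)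
  have h4 : (2 * τ.length + 3 + 120 * (κ + 2) ^ 2 * (e + 2)) * ((m + 1) * 2 ^ m) =
      (2 * τ.length + 3) * ((m + 1) * 2 ^ m) +
        120 * (κ + 2) ^ 2 * (e + 2) * ((m + 1) * 2 ^ m) := by ring
  omega

/-- the requirements for the slices: the kind, the algorithm, `C`, `c`, `e`, `k` -/
abbrev J₃ : Type := {p : Bool × Alg × ℕ × ℕ × ℕ × ℕ //
  1 ≤ p.2.2.2.2.1 ∧ p.2.2.2.1 + 2 + p.2.2.2.2.2 / p.2.2.2.2.1 ≤ p.2.2.2.2.2}

/-- the requirements for the classes -/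
abbrev J₄ : Type := Bool × Alg × Polynomial ℕ × List Bool

/-- the parameter -/
noncomputable def kap2 : J₃ ⊕ J₄ → ℕ
  | Sum.inl j => j.1.2.2.2.2.2
  | Sum.inr j => 2 * dd j.2.1 j.2.2.1 + 4

/-- the length of the entries -/
def ee2 : J₃ ⊕ J₄ → ℕ
  | Sum.inl j => j.1.2.2.2.2.1
  | Sum.inr _ => 2

/-- the claim that nothing is hidden -/
noncomputable def No2 : ∀ (j : J₃ ⊕ J₄) (m : ℕ), Tb (kap2 j) (ee2 j) m → Oracle → Prop
  | Sum.inl ⟨(true, M, C, c, _, _), _⟩, _, r, A => ∃ w : List Bool,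
      w.length ≤ tm C c (Xq r) ∧ AccIn M (tm C c (Xq r)) A (pairBits w (Xq r))
  | Sum.inl ⟨(false, M, C, c, _, _), _⟩, _, r, A => ¬ AccIn M (tm C c (Xq r)) A
      (pairBits (List.replicate (tm C c (Xq r)) true) (Xq r))
  | Sum.inr (true, M, p, τ), _, r, A => ∃ w : List Bool,
      w.length ≤ p.eval (pairBits τ (Xq r)).length ∧
      M.out A (pairBits w (pairBits τ (Xq r))) = some [true]
  | Sum.inr (false, M, _, τ), _, r, A => ¬ M.out A (pairBits τ (Xq r)) = some [true]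

/-- the constant -/
noncomputable def EE : J₃ ⊕ J₄ → ℕ
  | Sum.inl ⟨(_, _, C, c, e, k), _⟩ => C * (120 * (k + 2) ^ 2 * (e + 2) + 1) ^ c
  | Sum.inr (_, M, p, τ) =>
      (2 * τ.length + 3 + 120 * (2 * dd M p + 4 + 2) ^ 2 * (2 + 2)) ^ dd M p

/-- the exponent -/
noncomputable def de : J₃ ⊕ J₄ → ℕ
  | Sum.inl ⟨(_, _, _, c, _, _), _⟩ => c
  | Sum.inr (_, M, p, _) => dd M p

/-- the number of questions -/
noncomputable def TT2 (j : J₃ ⊕ J₄) (m : ℕ) : ℕ := EE j * ((m + 1) * 2 ^ m) ^ de j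

theorem Fw.mono {T T' : ℕ} {N : Oracle → Prop} (h : Fw T N) (hT : T ≤ T') : Fw T' N := by
  intro A hA
  obtain ⟨Q, h1, h2, h3⟩ := h A hA
  exact ⟨Q, h1.trans hT, fun q hq => (h2 q hq).trans hT, h3⟩

theorem kap2_pos (j : J₃ ⊕ J₄) : 0 < kap2 j := by
  rcases j with ⟨⟨β, M, C, c, e, k⟩, h1, h2⟩ | ⟨β, M, p, τ⟩
  · have h3 : c + 2 + k / e ≤ k := h2
    show 0 < k
    refine lt_of_lt_of_le ?_ h3
    generalize k / e = z
    omega
  · show 0 < 2 * dd M p + 4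
    omega

theorem fw_all2 (j : J₃ ⊕ J₄) (m : ℕ) (r : Tb (kap2 j) (ee2 j) m) :
    Fw (TT2 j m) (No2 j m r) := by
  have hκ := kap2_pos j
  rcases j with ⟨⟨β, M, C, c, e, k⟩, h1⟩ | ⟨β, M, p, τ⟩
  · have hle : tm C c (Xq r) ≤ TT2 (Sum.inl ⟨(β, M, C, c, e, k), h1⟩) m := tm_le2 C c e m hκ r
    cases β with
    | true => exact Fw.mono (fw_nacc M _ _) hle
    | false => exact Fw.mono (fw_acc M _ _) hle
  · have hle : ((pairBits τ (Xq r)).length + 2) ^ dd M p ≤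
      TT2 (Sum.inr (β, M, p, τ)) m := pb_le2 τ (dd M p) 2 m hκ r
    cases β with
    | true => exact Fw.mono (dd_spec M p _).2 hle
    | false => exact Fw.mono (dd_spec M p _).1 hle

theorem ev_all2 (j : J₃ ⊕ J₄) (n : ℕ) : ∃ m, n ≤ m ∧ ∃ σ h bb P M,
    Nums bs (ee2 j) (kap2 j) ((ee2 j + 2) * m) (2 ^ m) σ (TT2 j m) h bb P M := by
  have he : 1 ≤ ee2 j := by
    rcases j with ⟨⟨β, M, C, c, e, k⟩, h1, h2⟩ | ⟨β, M, p, τ⟩
    · exact h1
    · show 1 ≤ 2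
      omega
  have hd : de j + 2 + kap2 j / ee2 j ≤ kap2 j := by
    rcases j with ⟨⟨β, M, C, c, e, k⟩, h1, h2⟩ | ⟨β, M, p, τ⟩
    · exact h2
    · show dd M p + 2 + (2 * dd M p + 4) / 2 ≤ 2 * dd M p + 4
      omega
  obtain ⟨m, h1, h2⟩ := nums (EE j) (de j) (kap2 j) (ee2 j) (kap2 j / ee2 j) he
    (Nat.lt_mul_div_succ _ he) hd n
  exact ⟨m, h1, h2 _ le_rfl⟩

/-- all lower bounds -/
structure LowS (A : Oracle) : Prop where
  p : ¬ ParaAny (IsP A) (kHaltS 2 A)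
  np : ¬ ParaAny (IsNP A) (kHaltS 2 A)ᶜ
  det : ∀ (e k c C : ℕ) (M : Alg), 1 ≤ e → c + 2 + k / e ≤ k →
    ∃ x : List Bool, ¬ ((x, k) ∈ kHaltS e A ↔ AccIn M (C * (x.length + 1) ^ c) A
      (pairBits (List.replicate (C * (x.length + 1) ^ c) true) x))
  ndet : ∀ (e k c C : ℕ) (M : Alg), 1 ≤ e → c + 2 + k / e ≤ k →
    ∃ x : List Bool, ¬ ((x, k) ∉ kHaltS e A ↔ ∃ w : List Bool,
      w.length ≤ C * (x.length + 1) ^ c ∧ AccIn M (C * (x.length + 1) ^ c) A (pairBits w x))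

theorem low2 (hc : Cd g S bs Φ) : ∃ B : Oracle, LowS (Φ B) := by
  have hcn := CC.poly_countable
  obtain ⟨B, hB⟩ := exists_generic2 hc kap2 ee2 No2 TT2 kap2_pos fw_all2 ev_all2
  refine ⟨B, ?_, ?_, ?_, ?_⟩
  · rintro ⟨π, L, ⟨V, ⟨M, hM⟩, hL⟩, hQ⟩
    obtain ⟨m, r, hm⟩ := hB (Sum.inr (false, M, 0, π (2 * dd M 0 + 4)))
    apply hm
    have h2 : (Xq r, 2 * dd M 0 + 4) ∈ kHaltS 2 (Φ B) ↔ HitR (Φ B) r :=
      kHaltS_iff (Φ B) (kap2_pos _) r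
    show ¬ M.out (Φ B) (pairBits (π (2 * dd M 0 + 4)) (Xq r)) = some [true] ↔
      ¬ HitR (Φ B) r
    rw [← h2, hQ, hL, hM, Option.some.injEq]
  · rintro ⟨π, L, ⟨V, p, ⟨M, hM⟩, hL⟩, hQ⟩
    obtain ⟨m, r, hm⟩ := hB (Sum.inr (true, M, p, π (2 * dd M p + 4)))
    apply hm
    have h2 : (Xq r, 2 * dd M p + 4) ∈ kHaltS 2 (Φ B) ↔ HitR (Φ B) r :=
      kHaltS_iff (Φ B) (kap2_pos _) r
    show (∃ w : List Bool, w.length ≤ p.eval (pairBits (π (2 * dd M p + 4)) (Xq r)).length ∧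
      M.out (Φ B) (pairBits w (pairBits (π (2 * dd M p + 4)) (Xq r))) = some [true]) ↔
      ¬ HitR (Φ B) r
    have h1 : ¬ HitR (Φ B) r ↔ (Xq r, 2 * dd M p + 4) ∈ (kHaltS 2 (Φ B))ᶜ := by
      rw [← h2]
      exact Iff.rfl
    rw [h1, hQ, hL]
    refine exists_congr fun w => and_congr_right fun _ => ?_
    rw [hM, Option.some.injEq]
  · intro e k c C M he hk
    obtain ⟨m, r, hm⟩ := hB (Sum.inl ⟨(false, M, C, c, e, k), he, hk⟩)
    refine ⟨Xq r, fun h => hm ?_⟩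
    have h2 : (Xq r, k) ∈ kHaltS e (Φ B) ↔ HitR (Φ B) r := kHaltS_iff (Φ B) (kap2_pos _) r
    rw [h2] at h
    exact not_congr h.symm
  · intro e k c C M he hk
    obtain ⟨m, r, hm⟩ := hB (Sum.inl ⟨(true, M, C, c, e, k), he, hk⟩)
    refine ⟨Xq r, fun h => hm ?_⟩
    have h2 : (Xq r, k) ∈ kHaltS e (Φ B) ↔ HitR (Φ B) r := kHaltS_iff (Φ B) (kap2_pos _) r
    rw [h2] at h
    exact h.symm

end Pool.Agent.TH678.SQ
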