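import Pool.Agent.TH678.SQ.Esc

/-! The numbers -/

set_option autoImplicit false

namespace Pool.Agent.TH678.SQ

open Filter Pool.Agent.TH678.RS

/-- the rate of the codes -/
def bs (s : ℕ) : ℕ := 2 ^ Nat.sqrt (Nat.log 2 s)

theorem bs_mono : Monotone bs := fun _ _ h =>
  Nat.pow_le_pow_right (by norm_num) (Nat.sqrt_le_sqrt (Nat.log_mono_right h))

theorem ev_log {p : ℕ → Prop} (h : ∀ᶠ u in atTop, p u) : ∀ᶠ m in atTop, p (Nat.log 2 m) := by
  obtain ⟨u₀, hu⟩ := eventually_atTop.1 h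
  filter_upwards [eventually_ge_atTop (2 ^ u₀)] with m hm
  exact hu _ (Nat.le_log_of_pow_le (by norm_num) hm)

theorem ev_sqrt {p : ℕ → Prop} (h : ∀ᶠ u in atTop, p u) : ∀ᶠ m in atTop, p (Nat.sqrt m) := by
  obtain ⟨u₀, hu⟩ := eventually_atTop.1 h
  filter_upwards [eventually_ge_atTop (u₀ * u₀)] with m hm
  exact hu _ (Nat.le_sqrt.2 hm)

theorem ev_big (K d c : ℕ) : ∀ᶠ m : ℕ in atTop,
    K * (m + 1) ^ d * 2 ^ (K * (Nat.log 2 m + c) ^ 2) < 2 ^ m := by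
  filter_upwards [ev_log (ev_poly ((2 * K + d) * (c + 1) ^ 2) 2), eventually_ge_atTop 1]
    with m hm hm1
  set L := Nat.log 2 m with hL
  have h1 : m + 1 ≤ 2 ^ (L + 1) := Nat.lt_pow_succ_log_self (by norm_num) m
  have h2 : 2 ^ L ≤ m := Nat.pow_log_le_self 2 (by omega)
  have h3 : K ≤ 2 ^ K := Nat.lt_two_pow_self.le
  have h4 : K + (L + 1) * d + K * (L + c) ^ 2 < m := by
    have e1 : 1 ≤ (c + 1) ^ 2 * (L + 1) ^ 2 := Nat.mul_pos (by positivity) (by positivity)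
    have e2 : L + 1 ≤ (c + 1) ^ 2 * (L + 1) ^ 2 := by
      calc L + 1 ≤ (L + 1) ^ 2 := Nat.le_self_pow (by norm_num) _
        _ ≤ _ := Nat.le_mul_of_pos_left _ (by positivity)
    have e3 : (L + c) ^ 2 ≤ (c + 1) ^ 2 * (L + 1) ^ 2 := by
      rw [← mul_pow]
      apply Nat.pow_le_pow_left
      nlinarith
    calc K + (L + 1) * d + K * (L + c) ^ 2 ≤ K * ((c + 1) ^ 2 * (L + 1) ^ 2) +
          ((c + 1) ^ 2 * (L + 1) ^ 2) * d + K * ((c + 1) ^ 2 * (L + 1) ^ 2) :=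
          Nat.add_le_add (Nat.add_le_add (Nat.le_mul_of_pos_right _ e1)
            (Nat.mul_le_mul_right _ e2)) (Nat.mul_le_mul_left _ e3)
      _ = (2 * K + d) * (c + 1) ^ 2 * (L + 1) ^ 2 := by ring
      _ < 2 ^ L := hm
      _ ≤ m := h2
  calc K * (m + 1) ^ d * 2 ^ (K * (L + c) ^ 2)
      ≤ 2 ^ K * (2 ^ (L + 1)) ^ d * 2 ^ (K * (L + c) ^ 2) :=
        Nat.mul_le_mul_right _ (Nat.mul_le_mul h3 (Nat.pow_le_pow_left h1 d))
    _ = 2 ^ (K + (L + 1) * d + K * (L + c) ^ 2) := by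
        rw [← pow_mul, ← pow_add, ← pow_add]
    _ < 2 ^ m := Nat.pow_lt_pow_right (by norm_num) h4

theorem ev_sq (c : ℕ) : ∀ᶠ m : ℕ in atTop,
    (Nat.log 2 m + c) ^ 2 < 2 ^ Nat.sqrt (Nat.log 2 m) := by
  filter_upwards [ev_log (p := fun u => (c + 1) ^ 2 * (Nat.sqrt u + 1) ^ 4 < 2 ^ Nat.sqrt u)
    (ev_sqrt (ev_poly ((c + 1) ^ 2) 4))] with m hm
  set L := Nat.log 2 m with hL
  have h1 : L < (Nat.sqrt L + 1) * (Nat.sqrt L + 1) := Nat.lt_succ_sqrt L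
  refine lt_of_le_of_lt ?_ hm
  have h2 : L + c ≤ (c + 1) * (Nat.sqrt L + 1) ^ 2 := by nlinarith
  calc (L + c) ^ 2 ≤ ((c + 1) * (Nat.sqrt L + 1) ^ 2) ^ 2 := Nat.pow_le_pow_left h2 2
    _ = (c + 1) ^ 2 * (Nat.sqrt L + 1) ^ 4 := by ring

theorem nums (E d κ e q : ℕ) (he : 1 ≤ e) (hbe : κ < e * (q + 1)) (hκ : d + 2 + q ≤ κ) (n₀ : ℕ) :
    ∃ m, n₀ ≤ m ∧
    ∀ T, T ≤ E * ((m + 1) * 2 ^ m) ^ d →
      ∃ σ h bb P M, Nums bs e κ ((e + 2) * m) (2 ^ m) σ T h bb P M := by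
  set K := (E + 1) * 64 * ((e + 5) * κ + 6) ^ (κ + 1) + (κ + 2) with hK
  obtain ⟨m, hA, hB, hm2, hm0⟩ := ((ev_big K d (d + 2)).and ((ev_sq (d + 2)).and
    ((eventually_ge_atTop 2).and (eventually_ge_atTop n₀)))).exists
  refine ⟨m, hm0, fun T hT => ?_⟩
  set L := Nat.log 2 m with hL
  set v := L + (d + 2) with hv
  set σ := 2 ^ (v ^ 2) with hσ
  set h := σ + (e + 5) * κ + 4 with hh
  set bb := q + 1 with hbb
  set P := 4 * (2 ^ m) ^ κ - 1 with hP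
  have hP1 : P + 1 = 4 * (2 ^ m) ^ κ := by
    have : 0 < 4 * (2 ^ m) ^ κ := by positivity
    omega
  have hσ1 : 1 ≤ σ := Nat.one_le_two_pow
  -- consequences of the first condition
  have hσK : σ ^ (κ + 2) ≤ 2 ^ (K * v ^ 2) := by
    rw [hσ, ← pow_mul]
    apply Nat.pow_le_pow_right (by norm_num)
    rw [mul_comm]
    exact Nat.mul_le_mul_right _ (by omega)
  have hKm : K * (m + 1) ^ d * σ ^ (κ + 2) < 2 ^ m :=
    lt_of_le_of_lt (Nat.mul_le_mul_left _ hσK) hA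
  have hh1 : h + 1 ≤ ((e + 5) * κ + 6) * σ := by
    have h6 := Nat.le_mul_of_pos_right ((e + 5) * κ) hσ1
    have h5 : ((e + 5) * κ + 6) * σ = (e + 5) * κ * σ + 6 * σ := by ring
    rw [hh, h5]
    omega
  have hmd : 1 ≤ (m + 1) ^ d := Nat.one_le_pow _ _ (by omega)
  have c3 : 64 * h * σ ≤ 2 ^ m := by
    refine le_trans ?_ hKm.le
    have e1 : 64 * ((e + 5) * κ + 6) ≤ K := by
      have : (e + 5) * κ + 6 ≤ ((e + 5) * κ + 6) ^ (κ + 1) := Nat.le_self_pow (by omega) _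
      have e2 : 64 * ((e + 5) * κ + 6) ≤ (E + 1) * 64 * ((e + 5) * κ + 6) ^ (κ + 1) := by
        calc 64 * ((e + 5) * κ + 6) ≤ 64 * ((e + 5) * κ + 6) ^ (κ + 1) := Nat.mul_le_mul_left _ this
          _ ≤ (E + 1) * (64 * ((e + 5) * κ + 6) ^ (κ + 1)) := Nat.le_mul_of_pos_left _ (by omega)
          _ = _ := by ring
      omega
    have e3 : σ * σ ≤ σ ^ (κ + 2) := by
      rw [← sq]
      exact Nat.pow_le_pow_right hσ1 (by omega)
    calc 64 * h * σ ≤ 64 * (((e + 5) * κ + 6) * σ) * σ :=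
          Nat.mul_le_mul_right _ (Nat.mul_le_mul_left _ (by omega))
      _ = 64 * ((e + 5) * κ + 6) * (σ * σ) := by ring
      _ ≤ K * σ ^ (κ + 2) := Nat.mul_le_mul e1 e3
      _ ≤ K * (m + 1) ^ d * σ ^ (κ + 2) :=
          Nat.mul_le_mul_right _ (Nat.le_mul_of_pos_right _ hmd)
  have c4 : σ * (h + 1) ^ κ * (E * (m + 1) ^ d) < 2 ^ m := by
    refine lt_of_le_of_lt ?_ hKm
    have e1 : ((e + 5) * κ + 6) ^ κ * E ≤ K := by
      have e2 : ((e + 5) * κ + 6) ^ κ ≤ ((e + 5) * κ + 6) ^ (κ + 1) :=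
        Nat.pow_le_pow_right (by omega) (by omega)
      have e3 : ((e + 5) * κ + 6) ^ κ * E ≤ (E + 1) * 64 * ((e + 5) * κ + 6) ^ (κ + 1) := by
        calc ((e + 5) * κ + 6) ^ κ * E ≤ ((e + 5) * κ + 6) ^ (κ + 1) * ((E + 1) * 64) :=
              Nat.mul_le_mul e2 (by omega)
          _ = _ := by ring
      omega
    calc σ * (h + 1) ^ κ * (E * (m + 1) ^ d)
        ≤ σ * (((e + 5) * κ + 6) * σ) ^ κ * (E * (m + 1) ^ d) :=
          Nat.mul_le_mul_right _ (Nat.mul_le_mul_left _ (Nat.pow_le_pow_left hh1 κ))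
      _ = ((e + 5) * κ + 6) ^ κ * E * (m + 1) ^ d * (σ ^ (κ + 1)) := by
          rw [mul_pow, pow_succ σ κ]
          ring
      _ ≤ K * (m + 1) ^ d * σ ^ (κ + 2) :=
          Nat.mul_le_mul (Nat.mul_le_mul_right _ e1)
            (Nat.pow_le_pow_right hσ1 (by omega))
  have hT2 : T * (σ * (h + 1) ^ κ) < 2 ^ m * (2 ^ m) ^ d := by
    calc T * (σ * (h + 1) ^ κ) ≤ E * ((m + 1) * 2 ^ m) ^ d * (σ * (h + 1) ^ κ) :=
          Nat.mul_le_mul_right _ hT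
      _ = σ * (h + 1) ^ κ * (E * (m + 1) ^ d) * (2 ^ m) ^ d := by
          rw [mul_pow]
          ring
      _ < 2 ^ m * (2 ^ m) ^ d := Nat.mul_lt_mul_of_pos_right c4 (by positivity)
  have hT1 : T < 2 ^ ((d + 1) * m) := by
    calc T ≤ T * (σ * (h + 1) ^ κ) := Nat.le_mul_of_pos_right _ (by positivity)
      _ < 2 ^ m * (2 ^ m) ^ d := hT2
      _ = 2 ^ ((d + 1) * m) := by
          rw [← pow_succ', ← pow_mul, mul_comm]
  have hhP : h ≤ 8 * (P + 1) := by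
    rw [hP1]
    have e1 : h ≤ 64 * h * σ := by nlinarith
    have e2 : 2 ^ m ≤ (2 ^ m) ^ κ := Nat.le_self_pow (by omega) _
    omega
  refine ⟨σ, h, bb, P, 16 * h * (P + 1) * σ, ?_⟩
  refine ⟨Nat.one_le_two_pow, hσ1, ?_, ?_, ?_, ?_, ?_, ?_, ?_, ?_, ?_, ?_⟩
  · intro s hs
    have e1 : v ^ 2 ≤ Nat.log 2 s := Nat.le_log_of_pow_le (by norm_num) (by
      rw [hσ] at hs
      exact hs.le)
    have e2 : v ≤ Nat.sqrt (Nat.log 2 s) := Nat.le_sqrt.2 (by rwa [← sq])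
    have e3 : (d + 1) * m ≤ bs s := by
      have e4 : m ≤ 2 ^ (L + 1) := (Nat.lt_pow_succ_log_self (by norm_num) m).le
      have e5 : d + 1 ≤ 2 ^ (d + 1) := Nat.lt_two_pow_self.le
      calc (d + 1) * m ≤ 2 ^ (d + 1) * 2 ^ (L + 1) := Nat.mul_le_mul e5 e4
        _ = 2 ^ v := by rw [← pow_add, hv]; congr 1; ring
        _ ≤ bs s := Nat.pow_le_pow_right (by norm_num) e2
    calc T < 2 ^ ((d + 1) * m) := hT1
      _ ≤ 2 ^ (bs s + 1) := Nat.pow_le_pow_right (by norm_num) (by omega)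
      _ ≤ s ^ (bs s + 1) := Nat.pow_le_pow_left (by omega) _
  · intro s hs
    have e0 : m ≤ κ * ((e + 2) * m) := by
      calc m = 1 * (1 * m) := by ring
        _ ≤ κ * ((e + 2) * m) :=
            Nat.mul_le_mul (by omega) (Nat.mul_le_mul_right _ (by omega))
    have e1 : 2 ^ Nat.sqrt L ≤ bs s := bs_mono (show m ≤ s by omega)
    calc σ = 2 ^ v ^ 2 := rfl
      _ < 2 ^ (bs s + 1) := Nat.pow_lt_pow_right (by norm_num) (by omega)
      _ ≤ s ^ (bs s + 1) := Nat.pow_le_pow_left (by omega) _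
  · calc 2 * (h * h * σ) = h * (2 * h * σ) := by ring
      _ ≤ (8 * (P + 1)) * (2 * h * σ) := Nat.mul_le_mul_right _ hhP
      _ = 16 * h * (P + 1) * σ := by ring
  · have h0 : 0 < h := by omega
    exact Nat.succ_le_of_lt (Nat.mul_pos (Nat.mul_pos (Nat.mul_pos (by norm_num) h0)
      (Nat.succ_pos P)) hσ1)
  · calc 16 * h * (P + 1) * σ = 64 * h * σ * (2 ^ m) ^ κ := by rw [hP1]; ring
      _ ≤ 2 ^ m * (2 ^ m) ^ κ := Nat.mul_le_mul_right _ c3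
      _ = (2 ^ m) ^ (κ + 1) := by rw [pow_succ']
      _ ≤ (2 ^ m) ^ (e * bb) := Nat.pow_le_pow_right (by positivity) (by omega)
  · calc 2 = 2 ^ 1 := rfl
      _ ≤ 2 ^ m := Nat.pow_le_pow_right (by norm_num) (by omega)
      _ ≤ (2 ^ m) ^ (e * bb) := Nat.le_self_pow (by omega) _
  · have e1 : σ + 1 ≤ 2 ^ (σ + 1) := Nat.lt_two_pow_self.le
    have e2 : 8 * ((σ + 1) * 2 ^ (σ + 1)) ≤ 16 ^ h := by
      calc 8 * ((σ + 1) * 2 ^ (σ + 1)) ≤ 8 * (2 ^ (σ + 1) * 2 ^ (σ + 1)) :=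
            Nat.mul_le_mul_left _ (Nat.mul_le_mul_right _ e1)
        _ = 2 ^ (2 * σ + 5) := by
            rw [← pow_add, show (8 : ℕ) = 2 ^ 3 by norm_num, ← pow_add]
            congr 1
            ring
        _ ≤ 2 ^ (4 * h) := Nat.pow_le_pow_right (by norm_num) (by omega)
        _ = 16 ^ h := by
            rw [pow_mul]
            norm_num
    calc 4 * ((σ + 1) * 2 ^ (σ + 1) * (2 * h ^ h * ((P + 1) ^ h * σ ^ h)))
        = 8 * ((σ + 1) * 2 ^ (σ + 1)) * (h ^ h * ((P + 1) ^ h * σ ^ h)) := by ring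
      _ ≤ 16 ^ h * (h ^ h * ((P + 1) ^ h * σ ^ h)) := Nat.mul_le_mul_right _ e2
      _ = (16 * h * (P + 1) * σ) ^ h := by
          rw [mul_pow, mul_pow, mul_pow]
          ring
  · rw [hP1]
  · have e1 : σ + 1 ≤ 2 ^ (σ + 1) := Nat.lt_two_pow_self.le
    have e2 : (σ + 1) * 2 ^ (σ + 1) ≤ 2 ^ (2 * σ + 2) := by
      calc (σ + 1) * 2 ^ (σ + 1) ≤ 2 ^ (σ + 1) * 2 ^ (σ + 1) := Nat.mul_le_mul_right _ e1
        _ = _ := by rw [← pow_add]; congr 1; ring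
    have e3 : (σ + 1) * 2 ^ (σ + 1) + 2 ^ ((e + 2) * m * κ) ≤
        2 ^ (2 * σ + 3 + (e + 2) * m * κ) := by
      have f1 : 2 ^ (2 * σ + 2) ≤ 2 ^ (2 * σ + 2 + (e + 2) * m * κ) :=
        Nat.pow_le_pow_right (by norm_num) (by omega)
      have f2 : 2 ^ ((e + 2) * m * κ) ≤ 2 ^ (2 * σ + 2 + (e + 2) * m * κ) :=
        Nat.pow_le_pow_right (by norm_num) (by omega)
      have f3 : 2 ^ (2 * σ + 3 + (e + 2) * m * κ) = 2 * 2 ^ (2 * σ + 2 + (e + 2) * m * κ) := by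
        rw [← pow_succ']
        congr 1
        ring
      omega
    have e4 : κ ≤ 2 ^ κ := Nat.lt_two_pow_self.le
    calc 4 * (((σ + 1) * 2 ^ (σ + 1) + 2 ^ ((e + 2) * m * κ)) *
          (κ * (2 ^ m) ^ κ * (2 ^ m) ^ ((e + 1) * (h + 1))))
        ≤ 4 * (2 ^ (2 * σ + 3 + (e + 2) * m * κ) *
            (2 ^ κ * (2 ^ m) ^ κ * (2 ^ m) ^ ((e + 1) * (h + 1)))) :=
          Nat.mul_le_mul_left _ (Nat.mul_le_mul e3 (Nat.mul_le_mul_right _
            (Nat.mul_le_mul_right _ e4)))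
      _ = 2 ^ (2 + (2 * σ + 3 + (e + 2) * m * κ +
            (κ + m * κ + m * ((e + 1) * (h + 1))))) := by
          rw [← pow_mul, ← pow_mul, ← pow_add, ← pow_add, ← pow_add,
            show (4 : ℕ) = 2 ^ 2 by norm_num, ← pow_add]
      _ ≤ 2 ^ ((e + 2) * m * (h + 1)) := by
          apply Nat.pow_le_pow_right (by norm_num)
          have f1 : 2 * σ ≤ m * σ := Nat.mul_le_mul_right _ hm2
          have f2 : κ ≤ m * κ := Nat.le_mul_of_pos_left _ (by omega)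
          have f3 : m * (h + 1) = m * σ + (e * (m * κ) + 5 * (m * κ)) + 5 * m := by
            rw [hh]
            ring
          have f4 : (e + 2) * m * (h + 1) = (e + 1) * (m * (h + 1)) + m * (h + 1) := by ring
          have f5 : m * ((e + 1) * (h + 1)) = (e + 1) * (m * (h + 1)) := by ring
          have f6 : (e + 2) * m * κ = e * (m * κ) + 2 * (m * κ) := by ring
          rw [f4, f5, f6, f3]
          generalize (e + 1) * (m * σ + (e * (m * κ) + 5 * (m * κ)) + 5 * m) = z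
          generalize e * (m * κ) = z'
          omega
      _ = (2 ^ ((e + 2) * m)) ^ (h + 1) := by rw [← pow_mul]
  · calc T * (σ * ((h + 1) ^ κ * (2 ^ m) ^ bb)) = T * (σ * (h + 1) ^ κ) * (2 ^ m) ^ bb := by ring
      _ < 2 ^ m * (2 ^ m) ^ d * (2 ^ m) ^ bb := Nat.mul_lt_mul_of_pos_right hT2 (by positivity)
      _ = (2 ^ m) ^ (1 + d + bb) := by
          rw [pow_add (2 ^ m) (1 + d) bb, pow_add (2 ^ m) 1 d, pow_one]
      _ ≤ (2 ^ m) ^ κ := Nat.pow_le_pow_right (by positivity) (by omega)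

end Pool.Agent.TH678.SQ
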