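import Mathlib

/-! Predicates with small certificates and random sparse sets -/

set_option autoImplicit false

namespace Pool.Agent.TH678.SQ

open Finset

variable {U : Type} [Fintype U] [DecidableEq U]

/-- a positive answer has a certificate of size at most `s` -/
def Cert (s : ℕ) (φ : Finset U → Prop) : Prop := ∀ D, φ D → ∃ Q : Finset U, Q.card ≤ s ∧
  ∀ D', (∀ x ∈ Q, x ∈ D' ↔ x ∈ D) → φ D'

open Classical in
/-- the sets that can be peeled off -/
noncomputable def Pl (φ : Finset U → Prop) (D : Finset U) (j : ℕ) : Finset (Finset U) :=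
  (D.powersetCard j).filter (fun J => ¬ φ (D \ J) ∧ ∀ J' ⊆ J, J'.Nonempty → φ ((D \ J) ∪ J'))

theorem card_Pl {s : ℕ} {φ : Finset U → Prop} (h : Cert s φ) : ∀ (j : ℕ) (D : Finset U),
    (Pl φ D j).card ≤ s ^ j := by
  classical
  intro j
  induction j with
  | zero =>
    intro D
    refine (card_filter_le _ _).trans ?_
    simp
  | succ j ih =>
    intro D
    by_cases hD : φ D
    · obtain ⟨Q, hQ1, hQ2⟩ := h D hD
      have hsub : Pl φ D (j + 1) ⊆ Q.biUnion (fun z => (Pl φ (D.erase z) j).image (insert z)) := by
        intro J hJ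
        obtain ⟨h1, h2, h3⟩ := mem_filter.1 hJ
        obtain ⟨h4, h5⟩ := mem_powersetCard.1 h1
        have hex : ∃ z ∈ Q, z ∈ J := by
          by_contra hcon
          push Not at hcon
          refine h2 (hQ2 _ fun x hx => ?_)
          rw [mem_sdiff]
          exact ⟨fun h => h.1, fun h => ⟨h, hcon x hx⟩⟩
        obtain ⟨z, hz, hzJ⟩ := hex
        rw [mem_biUnion]
        refine ⟨z, hz, mem_image.2 ⟨J.erase z, ?_, insert_erase hzJ⟩⟩
        have e1 : D.erase z \ J.erase z = D \ J := by
          ext x
          simp only [mem_sdiff, mem_erase]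
          constructor
          · rintro ⟨⟨hx1, hx2⟩, hx3⟩
            exact ⟨hx2, fun h => hx3 ⟨hx1, h⟩⟩
          · rintro ⟨hx1, hx2⟩
            refine ⟨⟨?_, hx1⟩, fun h => hx2 h.2⟩
            rintro rfl
            exact hx2 hzJ
        refine mem_filter.2 ⟨mem_powersetCard.2 ⟨erase_subset_erase z h4, ?_⟩, ?_, ?_⟩
        · rw [card_erase_of_mem hzJ, h5, Nat.add_sub_cancel]
        · rw [e1]
          exact h2
        · intro J' hJ' hne
          rw [e1]
          exact h3 J' (hJ'.trans (erase_subset z J)) hne
      refine (card_le_card hsub).trans ((card_biUnion_le_card_mul _ _ (s ^ j) fun z _ => ?_).trans ?_)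
      · exact card_image_le.trans (ih _)
      · rw [pow_succ, mul_comm]
        exact Nat.mul_le_mul_left _ hQ1
    · have : Pl φ D (j + 1) = ∅ := by
        rw [← not_nonempty_iff_eq_empty]
        rintro ⟨J, hJ⟩
        obtain ⟨h1, _, h3⟩ := mem_filter.1 hJ
        obtain ⟨h4, h5⟩ := mem_powersetCard.1 h1
        apply hD
        have h6 := h3 J (Subset.refl J) (card_pos.1 (by omega))
        rwa [sdiff_union_of_subset h4] at h6
      rw [this]
      simp

/-- the strings that would change the answer -/
noncomputable def Zs (φ : Finset U → Prop) (D : Finset U) : Finset U := by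
  classical exact univ.filter (fun z => z ∉ D ∧ φ (insert z D))

theorem mem_Zs {φ : Finset U → Prop} {D : Finset U} {z : U} :
    z ∈ Zs φ D ↔ z ∉ D ∧ φ (insert z D) := by
  classical
  unfold Zs
  rw [mem_filter]
  exact and_iff_right (mem_univ z)

/-- many independent sets -/
theorem indep {Z : Finset U} {Q : U → Finset U} {s h : ℕ} (hQ : ∀ z ∈ Z, (Q z).card ≤ s)
    (hself : ∀ z ∈ Z, z ∈ Q z) (hZ : 2 * (h * h * s) ≤ Z.card) (hne : Z.Nonempty) :
    Z.card ^ h ≤ 2 * h ^ h * ((Z.powersetCard h).filter
      (fun J => ∀ z ∈ J, ∀ z' ∈ J, z ≠ z' → z' ∉ Q z)).card := by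
  classical
  set Ω : Finset (Fin h → U) := Fintype.piFinset (fun _ : Fin h => Z) with hΩ
  have hΩc : Ω.card = Z.card ^ h := by
    rw [hΩ, Fintype.card_piFinset, prod_const, card_univ, Fintype.card_fin]
  set Bd : Fin h → Fin h → Finset (Fin h → U) := fun i j =>
    Ω.filter (fun f => i ≠ j ∧ f j ∈ Q (f i)) with hBd
  obtain ⟨z₀, hz₀⟩ := hne
  have hBdc : ∀ i j, (Bd i j).card * Z.card ≤ s * Z.card ^ h := by
    intro i j
    by_cases hij : i = j
    · have : Bd i j = ∅ := by
        rw [hBd, ← not_nonempty_iff_eq_empty]
        rintro ⟨f, hf⟩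
        exact (mem_filter.1 hf).2.1 hij
      rw [this]
      simp
    · have h1 : (Bd i j).card ≤ s * ((Bd i j).image (fun f => Function.update f j z₀)).card := by
        refine card_le_mul_card_image _ _ fun g hg => ?_
        obtain ⟨f₀, hf₀, rfl⟩ := mem_image.1 hg
        have h2 : f₀ i ∈ Z := Fintype.mem_piFinset.1 (mem_filter.1 hf₀).1 i
        refine le_trans ?_ (hQ _ h2)
        refine card_le_card_of_injOn (fun f => f j) ?_ ?_
        · intro f hf
          obtain ⟨hf1, hf2⟩ := mem_filter.1 hf
          have h3 := congrFun hf2 i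
          rw [Function.update_of_ne hij, Function.update_of_ne hij] at h3
          have h4 := (mem_filter.1 hf1).2.2
          rw [h3] at h4
          exact h4
        · intro f hf f' hf' hff
          have hf2 := (mem_filter.1 hf).2
          have hf2' := (mem_filter.1 hf').2
          funext x
          by_cases hx : x = j
          · rw [hx]
            exact hff
          · have h3 := congrFun (hf2.trans hf2'.symm) x
            rwa [Function.update_of_ne hx, Function.update_of_ne hx] at h3
      have h2 : ((Bd i j).image (fun f => Function.update f j z₀)).card * Z.card ≤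
          Z.card ^ h := by
        have h3 : (Bd i j).image (fun f => Function.update f j z₀) ⊆
            Fintype.piFinset (fun x : Fin h => if x = j then {z₀} else Z) := by
          intro g hg
          obtain ⟨f, hf, rfl⟩ := mem_image.1 hg
          rw [Fintype.mem_piFinset]
          intro x
          by_cases hx : x = j
          · rw [hx, Function.update_self]
            simp
          · rw [Function.update_of_ne hx, if_neg hx]
            exact Fintype.mem_piFinset.1 (mem_filter.1 hf).1 x
        have h4 := card_le_card h3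
        rw [Fintype.card_piFinset] at h4
        have h5 : (∏ x : Fin h, (if x = j then ({z₀} : Finset U) else Z).card) * Z.card =
            Z.card ^ h := by
          have h6 : ∀ x : Fin h, (if x = j then ({z₀} : Finset U) else Z).card =
              if x = j then 1 else Z.card := by
            intro x
            split_ifs <;> simp
          rw [prod_congr rfl fun x _ => h6 x, prod_ite, prod_const_one, one_mul, prod_const]
          rw [filter_ne' univ j, card_erase_of_mem (mem_univ j), card_univ, Fintype.card_fin,
            ← pow_succ]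
          congr 1
          have := j.pos
          omega
        calc _ ≤ (∏ x : Fin h, (if x = j then ({z₀} : Finset U) else Z).card) * Z.card :=
              Nat.mul_le_mul_right _ h4
          _ = _ := h5
      calc (Bd i j).card * Z.card ≤
            s * ((Bd i j).image (fun f => Function.update f j z₀)).card * Z.card :=
            Nat.mul_le_mul_right _ h1
        _ = s * (((Bd i j).image (fun f => Function.update f j z₀)).card * Z.card) := by ring
        _ ≤ s * Z.card ^ h := Nat.mul_le_mul_left _ h2
  set Gd : Finset (Fin h → U) := Ω.filter (fun f => ∀ i j, i ≠ j → f j ∉ Q (f i)) with hGd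
  have hcov : Ω ⊆ Gd ∪ univ.biUnion (fun i => univ.biUnion (fun j => Bd i j)) := by
    intro f hf
    rw [mem_union]
    by_cases hall : ∀ i j, i ≠ j → f j ∉ Q (f i)
    · exact Or.inl (mem_filter.2 ⟨hf, hall⟩)
    · push Not at hall
      obtain ⟨i, j, hij, hm⟩ := hall
      exact Or.inr (mem_biUnion.2 ⟨i, mem_univ i, mem_biUnion.2 ⟨j, mem_univ j,
        mem_filter.2 ⟨hf, hij, hm⟩⟩⟩)
  have hpos : 0 < Z.card := card_pos.2 ⟨z₀, hz₀⟩
  have hbad : (univ.biUnion (fun i => univ.biUnion (fun j => Bd i j))).card * Z.card ≤
      h * h * s * Z.card ^ h := by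
    have h1 : (univ.biUnion (fun i => univ.biUnion (fun j => Bd i j))).card ≤
        ∑ i : Fin h, ∑ j : Fin h, (Bd i j).card :=
      card_biUnion_le.trans (sum_le_sum fun i _ => card_biUnion_le)
    calc _ ≤ (∑ i : Fin h, ∑ j : Fin h, (Bd i j).card) * Z.card := Nat.mul_le_mul_right _ h1
      _ = ∑ i : Fin h, ∑ j : Fin h, (Bd i j).card * Z.card := by
          rw [sum_mul]
          exact sum_congr rfl fun i _ => sum_mul _ _ _
      _ ≤ ∑ i : Fin h, ∑ j : Fin h, s * Z.card ^ h :=
          sum_le_sum fun i _ => sum_le_sum fun j _ => hBdc i j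
      _ = h * h * s * Z.card ^ h := by
          simp only [sum_const, card_univ, Fintype.card_fin, smul_eq_mul]
          ring
  have hbad2 : 2 * (univ.biUnion (fun i => univ.biUnion (fun j => Bd i j))).card ≤
      Z.card ^ h := by
    refine Nat.le_of_mul_le_mul_right ?_ hpos
    calc 2 * (univ.biUnion (fun i => univ.biUnion (fun j => Bd i j))).card * Z.card
        = 2 * ((univ.biUnion (fun i => univ.biUnion (fun j => Bd i j))).card * Z.card) := by ring
      _ ≤ 2 * (h * h * s * Z.card ^ h) := Nat.mul_le_mul_left _ hbad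
      _ = 2 * (h * h * s) * Z.card ^ h := by ring
      _ ≤ Z.card * Z.card ^ h := Nat.mul_le_mul_right _ hZ
      _ = _ := mul_comm _ _
  have hGc : Z.card ^ h ≤ 2 * Gd.card := by
    have h1 := (card_le_card hcov).trans (card_union_le _ _)
    rw [hΩc] at h1
    omega
  have hfib : Gd.card ≤ h ^ h * (Gd.image (fun f => univ.image f)).card := by
    refine card_le_mul_card_image _ _ fun J hJ => ?_
    obtain ⟨f₀, hf₀, rfl⟩ := mem_image.1 hJ
    have h1 : (Gd.filter (fun f => univ.image f = univ.image f₀)) ⊆
        Fintype.piFinset (fun _ : Fin h => univ.image f₀) := by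
      intro f hf
      rw [Fintype.mem_piFinset]
      intro x
      rw [← (mem_filter.1 hf).2]
      exact mem_image_of_mem f (mem_univ x)
    refine (card_le_card h1).trans ?_
    rw [Fintype.card_piFinset, prod_const, card_univ, Fintype.card_fin]
    refine Nat.pow_le_pow_left ?_ h
    refine card_image_le.trans ?_
    rw [card_univ, Fintype.card_fin]
  have himg : Gd.image (fun f => univ.image f) ⊆ (Z.powersetCard h).filter
      (fun J => ∀ z ∈ J, ∀ z' ∈ J, z ≠ z' → z' ∉ Q z) := by
    intro J hJ
    obtain ⟨f, hf, rfl⟩ := mem_image.1 hJ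
    obtain ⟨hf1, hf2⟩ := mem_filter.1 hf
    have hfZ : ∀ x, f x ∈ Z := fun x => Fintype.mem_piFinset.1 hf1 x
    have hinj : Function.Injective f := by
      intro x y hxy
      by_contra hne
      have := hf2 x y hne
      rw [← hxy] at this
      exact this (hself _ (hfZ x))
    refine mem_filter.2 ⟨mem_powersetCard.2 ⟨?_, ?_⟩, ?_⟩
    · intro z hz
      obtain ⟨x, _, rfl⟩ := mem_image.1 hz
      exact hfZ x
    · rw [card_image_of_injective _ hinj, card_univ, Fintype.card_fin]
    · intro z hz z' hz' hne
      obtain ⟨x, _, rfl⟩ := mem_image.1 hz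
      obtain ⟨y, _, rfl⟩ := mem_image.1 hz'
      exact hf2 x y fun h => hne (by rw [h])
  calc Z.card ^ h ≤ 2 * Gd.card := hGc
    _ ≤ 2 * (h ^ h * (Gd.image (fun f => univ.image f)).card) := Nat.mul_le_mul_left _ hfib
    _ ≤ 2 * (h ^ h * ((Z.powersetCard h).filter
      (fun J => ∀ z ∈ J, ∀ z' ∈ J, z ≠ z' → z' ∉ Q z)).card) :=
        Nat.mul_le_mul_left _ (Nat.mul_le_mul_left _ (card_le_card himg))
    _ = _ := by ring

end Pool.Agent.TH678.SQ
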